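import Pool.Agent.P.MP_16ad8c_co.OI.Defs

namespace Pool.Agent.P.MP_16ad8c_co.OI

open Finset Filter Topology

variable {V₁ V₂ : Type} [Fintype V₁] [Fintype V₂] [DecidableEq V₁] [DecidableEq V₂]

/-- Hoelder inequality followed by the inequality of means. -/
theorem holder_am {E : Finset (V₁ × V₂)} (h : Tri E) (hE : E.Nonempty) (c : V₁ × V₂ → Fin 3)
    {α β : Type} [Fintype α] [Fintype β] [Nonempty α] [Nonempty β]
    (f : Fin 3 → α → β → ℝ) (hf : ∀ i a b, 0 ≤ f i a b) (hpos : ∀ i, 0 < T E (fun _ => f i)) :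
    T E (fun e => f (c e)) ≤ ∑ e ∈ E, (E.card : ℝ)⁻¹ * T E (fun _ => f (c e)) := by
  have h1 := holder_pow h hE c f hf hpos
  have hm : (0 : ℝ) < E.card := by exact_mod_cast hE.card_pos
  have h2 := Real.geom_mean_le_arith_mean_weighted E (fun _ => (E.card : ℝ)⁻¹)
    (fun e => T E (fun _ => f (c e))) (fun _ _ => by positivity)
    (by rw [Finset.sum_const, nsmul_eq_mul, mul_inv_cancel₀ hm.ne'])
    (fun e _ => (hpos _).le)
  refine le_trans ?_ h2
  rw [Real.finsetProd_rpow E _ (fun e _ => (hpos _).le)]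
  have hn : 0 ≤ T E (fun e => f (c e)) := T_nonneg E fun e => hf _
  have h3 := Real.rpow_le_rpow (pow_nonneg hn _) h1 (z := (E.card : ℝ)⁻¹) (by positivity)
  rwa [Real.pow_rpow_inv_natCast hn hE.card_pos.ne'] at h3

theorem two_col {E O : Finset (V₁ × V₂)} (h : Tri E) (hE : E.Nonempty)
    {α β : Type} [Fintype α] [Fintype β] [Nonempty α] [Nonempty β]
    (f g : α → β → ℝ) (hf : ∀ a b, 0 ≤ f a b) (hg : ∀ a b, 0 ≤ g a b)
    (hf' : 0 < T E (fun _ => f)) (hg' : 0 < T E (fun _ => g)) :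
    T E (fun e => if e ∈ O then f else g) + T E (fun e => if e ∈ O then g else f) ≤
      T E (fun _ => f) + T E (fun _ => g) := by
  set F : Fin 3 → α → β → ℝ := ![f, g, f] with hF
  have hF0 : ∀ i a b, 0 ≤ F i a b := by
    intro i a b
    fin_cases i
    · exact hf a b
    · exact hg a b
    · exact hf a b
  have hFp : ∀ i, 0 < T E (fun _ => F i) := by
    intro i
    fin_cases i
    · exact hf'
    · exact hg'
    · exact hf'
  have a1 := holder_am h hE (fun e => if e ∈ O then 0 else 1) F hF0 hFp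
  have a2 := holder_am h hE (fun e => if e ∈ O then 1 else 0) F hF0 hFp
  have e1 : (fun e => F (if e ∈ O then 0 else 1)) = fun e => if e ∈ O then f else g := by
    funext e
    split_ifs <;> rfl
  have e2 : (fun e => F (if e ∈ O then 1 else 0)) = fun e => if e ∈ O then g else f := by
    funext e
    split_ifs <;> rfl
  rw [e1] at a1
  rw [e2] at a2
  have hm : (0 : ℝ) < E.card := by exact_mod_cast hE.card_pos
  refine le_trans (add_le_add a1 a2) (le_of_eq ?_)
  rw [← Finset.sum_add_distrib]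
  have : ∀ e ∈ E, (E.card : ℝ)⁻¹ * T E (fun _ => F (if e ∈ O then 0 else 1)) +
      (E.card : ℝ)⁻¹ * T E (fun _ => F (if e ∈ O then 1 else 0)) =
      (E.card : ℝ)⁻¹ * (T E (fun _ => f) + T E (fun _ => g)) := by
    intro e _
    split_ifs
    · change _ * T E (fun _ => f) + _ * T E (fun _ => g) = _
      ring
    · change _ * T E (fun _ => g) + _ * T E (fun _ => f) = _
      ring
  rw [Finset.sum_congr rfl this, Finset.sum_const, nsmul_eq_mul, ← mul_assoc,
    mul_inv_cancel₀ hm.ne', one_mul]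

theorem slope_prod {ι : Type} [DecidableEq ι] (s : Finset ι) (c : ι → ℝ) :
    Tendsto (fun a : ℝ => a⁻¹ * (∏ i ∈ s, (1 + a * c i) - 1)) (𝓝[>] 0) (𝓝 (∑ i ∈ s, c i)) := by
  have h : HasDerivAt (fun a : ℝ => ∏ i ∈ s, (1 + a * c i)) (∑ i ∈ s, c i) 0 := by
    have h1 := HasDerivAt.fun_finsetProd (u := s) (f := fun i (a : ℝ) => 1 + a * c i)
      (f' := c) (x := 0) (fun i _ => by
        simpa using ((hasDerivAt_id (0 : ℝ)).mul_const (c i)).const_add 1)
    simpa using h1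
  simpa using h.tendsto_slope_zero_right

omit [Fintype V₁] [Fintype V₂] in
theorem prod_split {E O : Finset (V₁ × V₂)} (hO : O ⊆ E) (w p q : V₁ × V₂ → ℝ) :
    ∏ e ∈ E, (w e * if e ∈ O then p e else q e) =
      (∏ e ∈ O, p e) * (∏ e ∈ E \ O, q e) * ∏ e ∈ E, w e := by
  rw [Finset.prod_mul_distrib, ← Finset.prod_sdiff hO (f := fun e => if e ∈ O then p e else q e)]
  have h1 : ∏ e ∈ O, (if e ∈ O then p e else q e) = ∏ e ∈ O, p e :=
    Finset.prod_congr rfl fun e he => if_pos he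
  have h2 : ∏ e ∈ E \ O, (if e ∈ O then p e else q e) = ∏ e ∈ E \ O, q e :=
    Finset.prod_congr rfl fun e he => if_neg (Finset.mem_sdiff.1 he).2
  rw [h1, h2]
  ring

theorem gamma_step {E O : Finset (V₁ × V₂)} (h : Tri E) (hE : E.Nonempty) (hO : O ⊆ E)
    {α β : Type} [Fintype α] [Fintype β] [Nonempty α] [Nonempty β] (W c : α → β → ℝ)
    (hW : ∀ p q, 0 ≤ W p q) (hT : 0 < T E (fun _ => W)) (hc : ∀ p q, 1 / 2 ≤ c p q) :
    0 ≤ ∑ x : V₁ → α, ∑ y : V₂ → β, (∏ e ∈ O, c (x e.1) (y e.2) - 1) *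
      (∏ e ∈ E \ O, c (x e.1) (y e.2) - 1) * ∏ e ∈ E, W (x e.1) (y e.2) := by
  have hg : ∀ p q, 0 ≤ W p q * c p q := fun p q =>
    mul_nonneg (hW p q) (le_trans (by norm_num) (hc p q))
  have hg' : 0 < T E (fun _ p q => W p q * c p q) := by
    have h1 : T E (fun _ p q => (1 / 2 : ℝ) * W p q) ≤ T E (fun _ p q => W p q * c p q) :=
      T_mono E (fun _ p q => mul_nonneg (by norm_num) (hW p q)) (fun _ p q => by
        have := mul_le_mul_of_nonneg_left (hc p q) (hW p q)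
        linarith)
    rw [T_smul E (fun _ => (1 / 2 : ℝ)) (fun _ => W)] at h1
    exact lt_of_lt_of_le (mul_pos (Finset.prod_pos fun _ _ => by norm_num) hT) h1
  have key := two_col (O := O) h hE W (fun p q => W p q * c p q) hW hg hT hg'
  unfold T at key
  have hD : (0 : ℝ) < (Fintype.card α : ℝ) ^ Fintype.card V₁ *
      (Fintype.card β : ℝ) ^ Fintype.card V₂ := by
    have := Fintype.card_pos (α := α)
    have := Fintype.card_pos (α := β)
    positivity
  rw [← add_div, ← add_div, div_le_div_iff_of_pos_right hD, ← sub_nonneg] at key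
  refine le_of_le_of_eq key ?_
  simp only [← Finset.sum_add_distrib, ← Finset.sum_sub_distrib]
  refine Finset.sum_congr rfl fun x _ => Finset.sum_congr rfl fun y _ => ?_
  have b1 := prod_split hO (fun e => W (x e.1) (y e.2)) (fun _ => 1) (fun e => c (x e.1) (y e.2))
  have b2 := prod_split hO (fun e => W (x e.1) (y e.2)) (fun e => c (x e.1) (y e.2)) (fun _ => 1)
  have b3 := prod_split hO (fun e => W (x e.1) (y e.2)) (fun e => c (x e.1) (y e.2))
    (fun e => c (x e.1) (y e.2))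
  have c1 : ∏ e ∈ E, (if e ∈ O then W else fun p q => W p q * c p q) (x e.1) (y e.2) =
      ∏ e ∈ E, (W (x e.1) (y e.2) * if e ∈ O then 1 else c (x e.1) (y e.2)) :=
    Finset.prod_congr rfl fun e _ => by split_ifs <;> simp
  have c2 : ∏ e ∈ E, (if e ∈ O then fun p q => W p q * c p q else W) (x e.1) (y e.2) =
      ∏ e ∈ E, (W (x e.1) (y e.2) * if e ∈ O then c (x e.1) (y e.2) else 1) :=
    Finset.prod_congr rfl fun e _ => by split_ifs <;> simp
  simp only [ite_self] at b3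
  rw [c1, c2, b1, b2, b3]
  simp only [Finset.prod_const_one]
  ring

/-- The statement for uniform vertex weights. -/
theorem gamma_unif {E O : Finset (V₁ × V₂)} (h : Tri E) (hO : O ⊆ E)
    (α β : Type) [Fintype α] [Fintype β] (W c : α → β → ℝ) (hW : ∀ p q, 0 ≤ W p q) :
    0 ≤ ∑ x : V₁ → α, ∑ y : V₂ → β, (∑ e ∈ O, c (x e.1) (y e.2)) *
      (∑ e ∈ E \ O, c (x e.1) (y e.2)) * ∏ e ∈ E, W (x e.1) (y e.2) := by
  rcases E.eq_empty_or_nonempty with hE | hE
  · subst hE
    simp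
  obtain ⟨e₀, -⟩ := id hE
  rcases isEmpty_or_nonempty α with hα | hα
  · have : IsEmpty (V₁ → α) := ⟨fun x => hα.false (x e₀.1)⟩
    simp
  rcases isEmpty_or_nonempty β with hβ | hβ
  · have : IsEmpty (V₂ → β) := ⟨fun y => hβ.false (y e₀.2)⟩
    simp
  rcases (T_nonneg E (f := fun _ => W) fun _ => hW).eq_or_lt with hT | hT
  · unfold T at hT
    have hD : (0 : ℝ) < (Fintype.card α : ℝ) ^ Fintype.card V₁ *
        (Fintype.card β : ℝ) ^ Fintype.card V₂ := by
      have := Fintype.card_pos (α := α)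
      have := Fintype.card_pos (α := β)
      positivity
    have h0 := (div_eq_zero_iff.1 hT.symm).resolve_right hD.ne'
    have hp : ∀ (x : V₁ → α) (y : V₂ → β), 0 ≤ ∏ e ∈ E, W (x e.1) (y e.2) := fun x y =>
      Finset.prod_nonneg fun e _ => hW _ _
    rw [Finset.sum_eq_zero_iff_of_nonneg fun x _ => Finset.sum_nonneg fun y _ => hp x y] at h0
    refine le_of_eq (Finset.sum_eq_zero fun x hx => Finset.sum_eq_zero fun y hy => ?_).symm
    rw [(Finset.sum_eq_zero_iff_of_nonneg fun y _ => hp x y).1 (h0 x hx) y hy, mul_zero]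
  have lim : Tendsto (fun a : ℝ => ∑ x : V₁ → α, ∑ y : V₂ → β,
      (a⁻¹ * (∏ e ∈ O, (1 + a * c (x e.1) (y e.2)) - 1)) *
      (a⁻¹ * (∏ e ∈ E \ O, (1 + a * c (x e.1) (y e.2)) - 1)) * ∏ e ∈ E, W (x e.1) (y e.2))
      (𝓝[>] 0) (𝓝 (∑ x : V₁ → α, ∑ y : V₂ → β, (∑ e ∈ O, c (x e.1) (y e.2)) *
      (∑ e ∈ E \ O, c (x e.1) (y e.2)) * ∏ e ∈ E, W (x e.1) (y e.2))) :=
    tendsto_finsetSum _ fun x _ => tendsto_finsetSum _ fun y _ =>
      ((slope_prod O _).mul (slope_prod (E \ O) _)).mul_const _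
  refine ge_of_tendsto lim ?_
  have ev : ∀ᶠ a : ℝ in 𝓝[>] 0, ∀ p q, 1 / 2 ≤ 1 + a * c p q := by
    refine Filter.eventually_all.2 fun p => Filter.eventually_all.2 fun q => ?_
    have hc : Continuous fun a : ℝ => 1 + a * c p q := by fun_prop
    have := (hc.tendsto 0).eventually (lt_mem_nhds (a := (1 / 2 : ℝ)) (by norm_num))
    exact (this.filter_mono nhdsWithin_le_nhds).mono fun a ha => ha.le
  filter_upwards [ev] with a ha
  have key := gamma_step h hE hO W (fun p q => 1 + a * c p q) hW hT ha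
  have key2 := mul_nonneg (mul_self_nonneg a⁻¹) key
  refine le_of_le_of_eq key2 ?_
  simp only [Finset.mul_sum]
  refine Finset.sum_congr rfl fun x _ => Finset.sum_congr rfl fun y _ => ?_
  ring

theorem sum_blowup {V P : Type} [Fintype V] [DecidableEq V] [Fintype P] [DecidableEq P]
    (m : P → ℕ) (F : (V → P) → ℝ) :
    ∑ x : V → (Σ p, Fin (m p)), F (fun u => (x u).1) = ∑ x : V → P, (∏ u, (m (x u) : ℝ)) * F x := by
  have h1 : ∀ x : V → (Σ p, Fin (m p)), F (fun u => (x u).1) =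
      ∑ z : V → P, (∏ u, if (x u).1 = z u then (1 : ℝ) else 0) * F z := by
    intro x
    rw [Finset.sum_eq_single (fun u => (x u).1)]
    · simp
    · intro z _ hz
      obtain ⟨u, hu⟩ := Function.ne_iff.1 hz
      rw [Finset.prod_eq_zero (Finset.mem_univ u) (if_neg (Ne.symm hu)), zero_mul]
    · simp
  simp only [h1]
  rw [Finset.sum_comm]
  refine Finset.sum_congr rfl fun z _ => ?_
  rw [← Finset.sum_mul]
  congr 1
  have h2 := Finset.prod_univ_sum (fun _ : V => (Finset.univ : Finset (Σ p, Fin (m p))))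
    (fun u s => if s.1 = z u then (1 : ℝ) else 0)
  rw [Fintype.piFinset_univ] at h2
  rw [← h2]
  refine Finset.prod_congr rfl fun u _ => ?_
  rw [Fintype.sum_sigma, Finset.sum_eq_single (z u)]
  · simp
  · intro p _ hp
    simp [hp]
  · simp

theorem gamma : S_Gamma := by
  intro V₁ V₂ _ _ _ _ E O h hO P _ _ μ ν W c hμ hν hW
  set A : (V₁ → P) → (V₂ → P) → ℝ := fun x y => (∑ e ∈ O, c (x e.1) (y e.2)) *
    (∑ f ∈ E \ O, c (x f.1) (y f.2)) * ∏ e ∈ E, W (x e.1) (y e.2) with hA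
  have nat : ∀ m n : P → ℕ, 0 ≤ ∑ x : V₁ → P, ∑ y : V₂ → P,
      ((∏ u, (m (x u) : ℝ)) * ∏ v, (n (y v) : ℝ)) * A x y := by
    intro m n
    have key := gamma_unif h hO (Σ p, Fin (m p)) (Σ p, Fin (n p)) (fun a b => W a.1 b.1)
      (fun a b => c a.1 b.1) (fun a b => hW _ _)
    have e1 := sum_blowup m (fun x : V₁ → P => ∑ y : V₂ → (Σ p, Fin (n p)), A x fun v => (y v).1)
    refine le_of_le_of_eq key (e1.trans ?_)
    refine Finset.sum_congr rfl fun x _ => ?_
    rw [sum_blowup n (A x), Finset.mul_sum]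
    exact Finset.sum_congr rfl fun y _ => by ring
  have lim : Tendsto (fun t : ℝ => ∑ x : V₁ → P, ∑ y : V₂ → P,
      ((∏ u, ((⌊μ (x u) * t⌋₊ : ℝ) / t)) * ∏ v, ((⌊ν (y v) * t⌋₊ : ℝ) / t)) * A x y) atTop
      (𝓝 (∑ x : V₁ → P, ∑ y : V₂ → P, ((∏ u, μ (x u)) * ∏ v, ν (y v)) * A x y)) :=
    tendsto_finsetSum _ fun x _ => tendsto_finsetSum _ fun y _ =>
      ((tendsto_finsetProd _ fun u _ => tendsto_nat_floor_mul_div_atTop (hμ _)).mul
        (tendsto_finsetProd _ fun v _ => tendsto_nat_floor_mul_div_atTop (hν _))).mul_const _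
  have fin : 0 ≤ ∑ x : V₁ → P, ∑ y : V₂ → P, ((∏ u, μ (x u)) * ∏ v, ν (y v)) * A x y := by
    refine ge_of_tendsto lim ?_
    filter_upwards [eventually_gt_atTop (0 : ℝ)] with t ht
    have key := nat (fun p => ⌊μ p * t⌋₊) (fun p => ⌊ν p * t⌋₊)
    have hD : (0 : ℝ) ≤ (t ^ Fintype.card V₁ * t ^ Fintype.card V₂)⁻¹ := by positivity
    refine le_of_le_of_eq (mul_nonneg hD key) ?_
    simp only [Finset.mul_sum]
    refine Finset.sum_congr rfl fun x _ => Finset.sum_congr rfl fun y _ => ?_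
    simp only [Finset.prod_div_distrib, Finset.prod_const, Finset.card_univ]
    rw [div_mul_div_comm, div_eq_inv_mul]
    exact (mul_assoc _ _ _).symm
  refine le_of_le_of_eq fin ?_
  refine Finset.sum_congr rfl fun x _ => Finset.sum_congr rfl fun y _ => ?_
  rw [hA]
  ring

end Pool.Agent.P.MP_16ad8c_co.OI
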