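import Pool.Agent.P.MP_16ad8c_co.OI.Iface2
import Pool.Agent.P.MP_16ad8c_co.OI.Gamma

namespace Pool.Agent.P.MP_16ad8c_co.OI

open Finset Filter Topology

set_option linter.unusedSectionVars false

variable {V₁ V₂ : Type} [Fintype V₁] [Fintype V₂] [DecidableEq V₁] [DecidableEq V₂]

theorem adj_iff (E : Finset (V₁ × V₂)) (u v : V₁ ⊕ V₂) : (graph E).Adj u v ↔
    ∃ e ∈ E, (u = Sum.inl e.1 ∧ v = Sum.inr e.2) ∨ (v = Sum.inl e.1 ∧ u = Sum.inr e.2) := by
  rw [graph, SimpleGraph.fromRel_adj]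
  constructor
  · rintro ⟨-, ⟨e, he, h⟩ | ⟨e, he, h⟩⟩
    · exact ⟨e, he, Or.inl h⟩
    · exact ⟨e, he, Or.inr h⟩
  · rintro ⟨e, he, h | h⟩
    · exact ⟨by rw [h.1, h.2]; simp, Or.inl ⟨e, he, h⟩⟩
    · exact ⟨by rw [h.1, h.2]; simp, Or.inr ⟨e, he, h⟩⟩

theorem side_ne (E : Finset (V₁ × V₂)) (u v : V₁ ⊕ V₂) (h : (graph E).Adj u v) :
    u.isLeft ≠ v.isLeft := by
  obtain ⟨e, -, h | h⟩ := (adj_iff E u v).1 h <;> simp [h.1, h.2]

theorem sum_eq_T (E : Finset (V₁ × V₂)) [DecidableRel (graph E).Adj] {P : Type} [Fintype P]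
    [DecidableEq P] [Nonempty P] (F : V₁ ⊕ V₂ → V₁ ⊕ V₂ → P → P → ℝ) :
    ∑ x : V₁ ⊕ V₂ → P, ∏ e ∈ Ed (graph E) Sum.isLeft, F e.1 e.2 (x e.1) (x e.2) =
      ((Fintype.card P : ℝ) ^ Fintype.card V₁ * (Fintype.card P : ℝ) ^ Fintype.card V₂) *
        T E (fun e => F (Sum.inl e.1) (Sum.inr e.2)) := by
  have hD : (Fintype.card P : ℝ) ^ Fintype.card V₁ * (Fintype.card P : ℝ) ^ Fintype.card V₂ ≠ 0 := by
    have := Fintype.card_pos (α := P)
    positivity
  rw [T, mul_div_cancel₀ _ hD, ← (Equiv.sumArrowEquivProdArrow V₁ V₂ P).symm.sum_comp,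
    Fintype.sum_prod_type]
  refine Finset.sum_congr rfl fun x _ => Finset.sum_congr rfl fun y _ => ?_
  symm
  refine Finset.prod_bij (fun e _ => (Sum.inl e.1, Sum.inr e.2)) ?_ ?_ ?_ ?_
  · intro e he
    exact Finset.mem_filter.2 ⟨Finset.mem_univ _, (adj_iff E _ _).2 ⟨e, he, Or.inl ⟨rfl, rfl⟩⟩, rfl⟩
  · intro e _ f _ h
    simp only [Prod.mk.injEq, Sum.inl.injEq, Sum.inr.injEq] at h
    exact Prod.ext h.1 h.2
  · intro g hg
    obtain ⟨-, h1, h2⟩ := Finset.mem_filter.1 hg
    obtain ⟨e, he, h | h⟩ := (adj_iff E _ _).1 h1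
    · exact ⟨e, he, Prod.ext h.1.symm h.2.symm⟩
    · rw [h.2] at h2; simp at h2
  · intro e _
    rfl

theorem two_col' {E O : Finset (V₁ × V₂)} (h : Tri E) (hE : E.Nonempty)
    {α β : Type} [Fintype α] [Fintype β] [Nonempty α] [Nonempty β]
    (f g : α → β → ℝ) (hf : ∀ a b, 0 ≤ f a b) (hg : ∀ a b, 0 ≤ g a b) :
    T E (fun e => if e ∈ O then f else g) + T E (fun e => if e ∈ O then g else f) ≤
      T E (fun _ => f) + T E (fun _ => g) := by
  have hc : ∀ f : α → β → ℝ, Continuous fun d : ℝ => T E (fun _ a b => f a b + d) := by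
    intro f
    unfold T
    fun_prop
  have h1 : Tendsto (fun d : ℝ => T E (fun _ a b => f a b + d) + T E (fun _ a b => g a b + d))
      (𝓝[>] 0) (𝓝 (T E (fun _ a b => f a b + 0) + T E (fun _ a b => g a b + 0))) :=
    (((hc f).add (hc g)).tendsto 0).mono_left nhdsWithin_le_nhds
  simp only [add_zero] at h1
  refine ge_of_tendsto h1 (eventually_nhdsWithin_of_forall fun d hd => ?_)
  have hd' : (0 : ℝ) < d := hd
  have hp : ∀ f : α → β → ℝ, (∀ a b, 0 ≤ f a b) → 0 < T E (fun _ a b => f a b + d) := by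
    intro f hf
    have := Fintype.card_pos (α := α)
    have := Fintype.card_pos (α := β)
    exact div_pos (Finset.sum_pos (fun x _ => Finset.sum_pos (fun y _ => Finset.prod_pos
      fun e _ => add_pos_of_nonneg_of_pos (hf _ _) hd') Finset.univ_nonempty)
      Finset.univ_nonempty) (by positivity)
  refine le_trans (add_le_add ?_ ?_) (two_col (O := O) h hE (fun a b => f a b + d)
    (fun a b => g a b + d) (fun a b => add_nonneg (hf a b) hd'.le)
    (fun a b => add_nonneg (hg a b) hd'.le) (hp f hf) (hp g hg)) <;>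
  · refine T_mono E (fun e a b => ?_) (fun e a b => ?_) <;> split_ifs <;>
      first | exact hf a b | exact hg a b | exact le_add_of_nonneg_right hd'.le

theorem symIneq {E : Finset (V₁ × V₂)} [DecidableRel (graph E).Adj] (h : Tri E) (hE : E.Nonempty)
    (col : V₁ ⊕ V₂ → V₁ ⊕ V₂ → Bool) : SymIneq (graph E) Sum.isLeft col := by
  intro P _ _ _ f hf
  rw [sum_eq_T E (fun u v => f (col u v)), sum_eq_T E (fun u v => f (!col u v)),
    sum_eq_T E (fun _ _ => f true), sum_eq_T E (fun _ _ => f false), ← mul_add, ← mul_add]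
  refine mul_le_mul_of_nonneg_left ?_ (by positivity)
  have key := two_col' (O := univ.filter fun e => col (Sum.inl e.1) (Sum.inr e.2) = true) h hE
    (f true) (f false) (hf true) (hf false)
  refine le_of_eq_of_le ?_ key
  congr 2 <;> funext e <;> simp only [Finset.mem_filter, Finset.mem_univ, true_and] <;>
    cases col (Sum.inl e.1) (Sum.inr e.2) <;> simp

theorem maxIneq {E : Finset (V₁ × V₂)} [DecidableRel (graph E).Adj] (h : Tri E) (hE : E.Nonempty)
    (col : V₁ ⊕ V₂ → V₁ ⊕ V₂ → Bool) : MaxIneq (graph E) Sum.isLeft col := by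
  intro P _ _ _ f hf
  by_contra hcon
  push Not at hcon
  have hlt : ∀ i, T E (fun _ => f i) < T E (fun e => f (col (Sum.inl e.1) (Sum.inr e.2))) := by
    intro i
    have := hcon i
    rw [sum_eq_T E (fun u v => f (col u v)), sum_eq_T E (fun _ _ => f i)] at this
    exact lt_of_mul_lt_mul_left this (by positivity)
  set t := T E (fun e => f (col (Sum.inl e.1) (Sum.inr e.2))) with ht
  set r := (max (T E fun _ => f true) (T E fun _ => f false) + t) / 2 with hr
  have h0 : 0 ≤ T E fun _ => f true := T_nonneg E fun _ => hf true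
  have hm := max_lt (hlt true) (hlt false)
  have hm1 := le_max_left (T E fun _ => f true) (T E fun _ => f false)
  have hm2 := le_max_right (T E fun _ => f true) (T E fun _ => f false)
  have hr0 : 0 < r := by linarith
  set s : ℝ := (r ^ ((E.card : ℝ)⁻¹))⁻¹ with hs
  have hs0 : 0 < s := inv_pos.2 (Real.rpow_pos_of_pos hr0 _)
  have hsp : s ^ E.card = r⁻¹ := by
    rw [hs, inv_pow, Real.rpow_inv_natCast_pow hr0.le hE.card_pos.ne']
  have key := holder_one h hE
    (fun e => if col (Sum.inl e.1) (Sum.inr e.2) = true then 0 else 1)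
    (fun i a b => s * f (decide (i = 0)) a b) (fun i a b => mul_nonneg hs0.le (hf _ a b))
    (fun i => by
      rw [T_smul E (fun _ => s) (fun _ => f (decide (i = 0))), Finset.prod_const, hsp,
        inv_mul_le_iff₀ hr0]
      cases decide (i = 0) <;> linarith)
  rw [T_smul E (fun _ => s) (fun e => f (decide
    ((if col (Sum.inl e.1) (Sum.inr e.2) = true then (0 : Fin 3) else 1) = 0))),
    Finset.prod_const, hsp, inv_mul_le_iff₀ hr0] at key
  have e : (fun e : V₁ × V₂ => f (decide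
    ((if col (Sum.inl e.1) (Sum.inr e.2) = true then (0 : Fin 3) else 1) = 0))) =
      fun e => f (col (Sum.inl e.1) (Sum.inr e.2)) := by
    funext e
    cases col (Sum.inl e.1) (Sum.inr e.2) <;> simp
  rw [e] at key
  linarith

end Pool.Agent.P.MP_16ad8c_co.OI
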