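import Pool.Agent.P.MP_16ad8c_co.OI.Comb
import Pool.Agent.P.MP_16ad8c_co.OI.Max

namespace Pool.Agent.P.MP_16ad8c_co.OI

open Finset

set_option linter.unusedSectionVars false

variable {V₁ V₂ : Type} [Fintype V₁] [Fintype V₂]

theorem side_of_mem {E : Finset (V₁ × V₂)} {g : Equiv.Perm (V₁ ⊕ V₂)}
    (hg : g ∈ Subgroup.closure {φ | IsFold E φ}) (u : V₁ ⊕ V₂) : (g u).isLeft = u.isLeft := by
  induction hg using Subgroup.closure_induction generalizing u with
  | mem φ h => exact h.1.1.1 u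
  | one => rfl
  | mul φ ψ _ _ h1 h2 => rw [Equiv.Perm.mul_apply, h1, h2]
  | inv φ _ h => rw [← h (φ⁻¹ u)]; simp

open Classical in
/-- The indicator of the orbit of the edge `e` under the fold group. -/
noncomputable def orb (E : Finset (V₁ × V₂)) (e : V₁ × V₂) (u v : V₁ ⊕ V₂) : Bool :=
  decide (∃ g ∈ Subgroup.closure {φ | IsFold E φ},
    (g (Sum.inl e.1) = u ∧ g (Sum.inr e.2) = v) ∨ (g (Sum.inl e.1) = v ∧ g (Sum.inr e.2) = u))

theorem orb_symm (E : Finset (V₁ × V₂)) (e : V₁ × V₂) (u v : V₁ ⊕ V₂) :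
    orb E e u v = orb E e v u := by
  simp only [orb, decide_eq_decide]
  exact exists_congr fun g => and_congr_right fun _ => or_comm

theorem orb_self (E : Finset (V₁ × V₂)) (e : V₁ × V₂) :
    orb E e (Sum.inl e.1) (Sum.inr e.2) = true := by
  simp only [orb, decide_eq_true_eq]
  exact ⟨1, Subgroup.one_mem _, Or.inl ⟨rfl, rfl⟩⟩

theorem orb_fold {E : Finset (V₁ × V₂)} (e : V₁ × V₂) {σ : Equiv.Perm (V₁ ⊕ V₂)}
    (h : IsFold E σ) (u v : V₁ ⊕ V₂) : orb E e u v = orb E e (σ u) (σ v) := by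
  have hσ : σ ∈ Subgroup.closure {φ | IsFold E φ} := Subgroup.subset_closure h
  simp only [orb, decide_eq_decide]
  constructor
  · rintro ⟨g, hg, h⟩
    refine ⟨σ * g, Subgroup.mul_mem _ hσ hg, ?_⟩
    simpa using h
  · rintro ⟨g, hg, h⟩
    refine ⟨σ⁻¹ * g, Subgroup.mul_mem _ (Subgroup.inv_mem _ hσ) hg, ?_⟩
    simpa [Equiv.symm_apply_eq] using h

theorem of_orb {E : Finset (V₁ × V₂)} {e f : V₁ × V₂}
    (h : orb E e (Sum.inl f.1) (Sum.inr f.2) = true) :
    ∃ g ∈ Subgroup.closure {φ | IsFold E φ},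
      g (Sum.inl e.1) = Sum.inl f.1 ∧ g (Sum.inr e.2) = Sum.inr f.2 := by
  simp only [orb, decide_eq_true_eq] at h
  obtain ⟨g, hg, h | h⟩ := h
  · exact ⟨g, hg, h⟩
  · have := side_of_mem hg (Sum.inl e.1)
    rw [h.1] at this
    simp at this

theorem onlyIf_of (hB : S_B2) [DecidableEq V₁] [DecidableEq V₂] {E : Finset (V₁ × V₂)}
    (h : Tri E) : EdgeTransitiveUnder E (Subgroup.closure {φ | IsFold E φ}) := by
  classical
  intro e he f hf
  refine of_orb ?_
  by_contra hn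
  obtain ⟨σ, a, b, h1, -, h2⟩ := comb2 (side_ne E) (orb_symm E e)
    (hB _ (graph E) Sum.isLeft (orb E e) (side_ne E) (orb_symm E e) (symIneq h ⟨e, he⟩ _))
    ⟨_, _, _, _, (adj_iff E _ _).2 ⟨e, he, Or.inl ⟨rfl, rfl⟩⟩,
      (adj_iff E _ _).2 ⟨f, hf, Or.inl ⟨rfl, rfl⟩⟩, rfl, by rw [orb_self]; exact Ne.symm hn⟩
  exact h2 (orb_fold e h1 a b)

theorem onlyIf_conn (hB : S_B) [DecidableEq V₁] [DecidableEq V₂] {E : Finset (V₁ × V₂)}
    (hc : (graph E).Connected) (h : Tri E) :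
    EdgeTransitiveUnder E (Subgroup.closure {φ | IsFold E φ}) := by
  classical
  intro e he f hf
  refine of_orb ?_
  by_cases H : ∃ a b b', (graph E).Adj a b ∧ (graph E).Adj a b' ∧ orb E e a b ≠ orb E e a b'
  · obtain ⟨σ, a, b1, b2, h1, -, -, h2, h3, h4⟩ := comb (side_ne E)
      (hB _ (graph E) Sum.isLeft (orb E e) (side_ne E) (orb_symm E e) (maxIneq h ⟨e, he⟩ _)) H
    exact absurd (by rw [orb_fold e h1 a b1, h3, h4]) h2
  · push Not at H
    have key : ∀ z, Relation.ReflTransGen (graph E).Adj (Sum.inl e.1) z →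
        ∀ x, (graph E).Adj z x → orb E e z x = true := by
      intro z hz
      induction hz with
      | refl =>
        intro x hx
        rw [H _ x _ hx ((adj_iff E _ _).2 ⟨e, he, Or.inl ⟨rfl, rfl⟩⟩), orb_self]
      | tail _ hadj ih =>
        intro x hx
        rw [H _ x _ hx hadj.symm, orb_symm, ih _ hadj]
    exact key _ ((SimpleGraph.reachable_iff_reflTransGen _ _).1 (hc.preconnected _ _)) _
      ((adj_iff E _ _).2 ⟨f, hf, Or.inl ⟨rfl, rfl⟩⟩)

end Pool.Agent.P.MP_16ad8c_co.OI
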