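import Pool.Agent.P.MP_16ad8c_co.OI.Char

namespace Pool.Agent.P.MP_16ad8c_co.OI

open Finset Filter Topology

variable {V : Type} [Fintype V] [DecidableEq V]

/-- The test kernels. -/
noncomputable def ker (G : SimpleGraph V) [DecidableRel G.Adj] (sd : V → Bool)
    (w k : V → V → ℝ) (p q : V × (V → ℤˣ)) : ℝ :=
  if (p.1, q.1) ∈ Ed G sd ∧ ev G p.1 p.2 ∧ ev G q.1 q.2 then
    w p.1 q.1 * (1 + k p.1 q.1 * (((p.2 q.1 * q.2 p.1 : ℤˣ) : ℤ) : ℝ)) else 0

variable {G : SimpleGraph V} [DecidableRel G.Adj] {sd : V → Bool}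

theorem ker_nonneg {w k : V → V → ℝ} (hw : ∀ u y, 0 ≤ w u y) (hk : ∀ u y, |k u y| ≤ 1)
    (p q : V × (V → ℤˣ)) : 0 ≤ ker G sd w k p q := by
  unfold ker
  split_ifs
  · refine mul_nonneg (hw _ _) ?_
    have := abs_le.1 (hk p.1 q.1)
    rcases Int.units_eq_one_or (p.2 q.1 * q.2 p.1) with h | h <;> rw [h] <;> simp <;> linarith
  · exact le_rfl

theorem expand (w : V → V → ℝ) (k : V × V → V → V → ℝ) :
    ∑ x : V → V × (V → ℤˣ), ∏ e ∈ Ed G sd, ker G sd w (k e) (x e.1) (x e.2) =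
      ∑ φ : V → V, ∑ B ∈ (Ed G sd).powerset, if homE G sd φ then
        (∏ e ∈ Ed G sd, w (φ e.1) (φ e.2)) * (∏ e ∈ B, k e (φ e.1) (φ e.2)) * chiSum G sd φ B
        else 0 := by
  rw [← Equiv.sum_comp (Equiv.arrowProdEquivProdArrow V (fun _ => V) (fun _ => V → ℤˣ)).symm,
    Fintype.sum_prod_type]
  refine Finset.sum_congr rfl fun φ _ => ?_
  have h1 : ∀ s : V → V → ℤˣ, ∏ e ∈ Ed G sd, ker G sd w (k e) (φ e.1, s e.1) (φ e.2, s e.2) =
      ∑ B ∈ (Ed G sd).powerset, if homE G sd φ then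
        (∏ e ∈ Ed G sd, w (φ e.1) (φ e.2)) * (∏ e ∈ B, k e (φ e.1) (φ e.2)) *
          (if good G sd φ s then (((chi φ B s : ℤˣ) : ℤ) : ℝ) else 0) else 0 := by
    intro s
    unfold ker
    rw [Finset.prod_ite_zero]
    by_cases h : homE G sd φ
    · by_cases h' : good G sd φ s
      · rw [if_pos fun e he => ⟨h e he, h' e he⟩, Finset.prod_mul_distrib, Finset.prod_one_add,
          Finset.mul_sum]
        refine Finset.sum_congr rfl fun B _ => ?_
        rw [if_pos h, if_pos h', Finset.prod_mul_distrib, mul_assoc]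
        unfold chi
        push_cast
        rfl
      · rw [if_neg fun hc => h' fun e he => (hc e he).2]
        simp [h']
    · rw [if_neg fun hc => h fun e he => (hc e he).1]
      simp [h]
  refine Eq.trans (Finset.sum_congr rfl fun s _ => h1 s) ?_
  rw [Finset.sum_comm]
  refine Finset.sum_congr rfl fun B _ => ?_
  split_ifs
  · rw [← Finset.mul_sum]
    rfl
  · simp

theorem neg_small {ι : Type} [DecidableEq ι] (s : Finset ι) (a : ι → ℝ) (d : ι → ℕ) (i₀ : ι)
    (hi : i₀ ∈ s) (ha : a i₀ < 0) (h : ∀ i ∈ s, d i ≤ d i₀ → a i ≤ 0) :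
    ∀ᶠ τ : ℝ in 𝓝[>] 0, ∑ i ∈ s, τ ^ d i * a i < 0 := by
  set C := ∑ i ∈ s, |a i| with hC
  have hc : Continuous fun τ : ℝ => a i₀ + τ * C := by fun_prop
  have e1 := (hc.tendsto 0).eventually (gt_mem_nhds (a := (0 : ℝ)) (by simpa using ha))
  filter_upwards [e1.filter_mono nhdsWithin_le_nhds, Ioc_mem_nhdsGT (zero_lt_one' ℝ)]
    with τ h1 h2
  obtain ⟨h2, h3⟩ := h2
  have key : ∑ i ∈ s, τ ^ d i * a i ≤
      ∑ i ∈ s, ((if i = i₀ then τ ^ d i₀ * a i₀ else 0) + τ ^ (d i₀ + 1) * |a i|) := by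
    refine Finset.sum_le_sum fun i hi => ?_
    have p1 : 0 ≤ τ ^ (d i₀ + 1) * |a i| := by positivity
    split_ifs with h0
    · subst h0
      linarith
    · by_cases hd : d i ≤ d i₀
      · have := mul_nonpos_of_nonneg_of_nonpos (pow_pos h2 (d i)).le (h i hi hd)
        linarith
      · have p2 : τ ^ d i ≤ τ ^ (d i₀ + 1) := pow_le_pow_of_le_one h2.le h3 (by omega)
        have p3 := mul_le_mul_of_nonneg_left (le_abs_self (a i)) (pow_pos h2 (d i)).le
        have p4 := mul_le_mul_of_nonneg_right p2 (abs_nonneg (a i))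
        linarith
  rw [Finset.sum_add_distrib, Finset.sum_ite_eq' s i₀, if_pos hi, ← Finset.mul_sum, ← hC] at key
  have p5 := mul_neg_of_pos_of_neg (pow_pos h2 (d i₀)) h1
  refine lt_of_le_of_lt key (lt_of_eq_of_lt ?_ p5)
  ring

theorem choose_k (Pe Pf : ℕ → Prop) (W : ℕ) (h : ∀ n n', Pe n → Pf n' → 2 * W < n + n') :
    ∃ ks kt : ℕ, (∀ n, Pe n → 2 * W + ks + kt < 2 * n + ks * 2) ∧
      (∀ n, Pf n → 2 * W + ks + kt < 2 * n + kt * 2) ∧
      ∀ p q, 3 ≤ p + q → 2 * W + ks + kt < ks * p + kt * q := by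
  classical
  obtain ⟨M, hM1, hM2, hM3⟩ : ∃ M, M ≤ 4 * W + 2 ∧ (∀ n, Pe n → M ≤ 2 * n) ∧
      ∀ n, Pf n → 4 * W + 1 < 2 * n + M := by
    by_cases he : ∃ n, Pe n ∧ n ≤ 2 * W + 1
    · obtain ⟨h1, h2⟩ := Nat.find_spec he
      refine ⟨2 * Nat.find he, by omega, fun n hn => ?_, fun n hn => ?_⟩
      · by_cases h3 : n ≤ 2 * W + 1
        · have := Nat.find_min' he ⟨hn, h3⟩
          omega
        · omega
      · have := h _ n h1 hn
        omega
    · refine ⟨4 * W + 2, le_rfl, fun n hn => ?_, fun n _ => by omega⟩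
      by_contra h3
      exact he ⟨n, hn, by omega⟩
  refine ⟨8 * W + 4 + (2 * W + 1), 8 * W + 4 + M, fun n hn => ?_, fun n hn => ?_,
    fun p q hpq => ?_⟩
  · have := hM2 n hn
    omega
  · have := hM3 n hn
    omega
  · have a1 : (8 * W + 4) * p ≤ (8 * W + 4 + (2 * W + 1)) * p :=
      Nat.mul_le_mul_right p (by omega)
    have a2 : (8 * W + 4) * q ≤ (8 * W + 4 + M) * q := Nat.mul_le_mul_right q (by omega)
    have a3 : (8 * W + 4) * 3 ≤ (8 * W + 4) * (p + q) := Nat.mul_le_mul_left _ hpq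
    rw [Nat.mul_add] at a3
    omega

/-- The sign of a colour. -/
def th (i : Bool) : ℝ := if i then 1 else -1

theorem th_mul_self (i : Bool) : th i * th i = 1 := by cases i <;> simp [th]

theorem th_mul_le (i j : Bool) : th i * th j ≤ 1 := by cases i <;> cases j <;> simp [th]

theorem th_mul_ne {i j : Bool} (h : i ≠ j) : th i * th j = -1 := by
  cases i <;> cases j <;> simp_all [th]

theorem abs_th (i : Bool) : |th i| = 1 := by cases i <;> simp [th]

/-- The perturbation factor. -/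
noncomputable def kap (a b b' : V) (s t : ℝ) (i : Bool) (u y : V) : ℝ :=
  (if u = a ∧ y = b then th i * s else 1) * (if u = a ∧ y = b' then -(th i * t) else 1)

omit [Fintype V] in
theorem abs_kap (a b b' : V) {s t : ℝ} (hs : |s| ≤ 1) (ht : |t| ≤ 1) (i : Bool) (u y : V) :
    |kap a b b' s t i u y| ≤ 1 := by
  unfold kap
  rw [abs_mul]
  refine mul_le_one₀ ?_ (abs_nonneg _) ?_
  · split_ifs
    · rwa [abs_mul, abs_th, one_mul]
    · simp
  · split_ifs
    · rwa [abs_neg, abs_mul, abs_th, one_mul]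
    · simp

omit [Fintype V] in
theorem prod_kap (a b b' : V) (s t : ℝ) (c : V × V → Bool) (φ : V → V) (B : Finset (V × V)) :
    ∏ e ∈ B, kap a b b' s t (c e) (φ e.1) (φ e.2) =
      s ^ (ov φ B a b).card * t ^ (ov φ B a b').card * ((-1) ^ (ov φ B a b').card *
        ((∏ e ∈ ov φ B a b, th (c e)) * ∏ e ∈ ov φ B a b', th (c e))) := by
  unfold kap
  rw [Finset.prod_mul_distrib, ← Finset.prod_filter, ← Finset.prod_filter]
  change (∏ e ∈ ov φ B a b, th (c e) * s) * (∏ e ∈ ov φ B a b', -(th (c e) * t)) = _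
  rw [Finset.prod_neg, Finset.prod_mul_distrib, Finset.prod_mul_distrib, Finset.prod_const,
    Finset.prod_const]
  ring

/-- The total weight of a map. -/
def wtB (G : SimpleGraph V) [DecidableRel G.Adj] (sd : V → Bool) (ω : V → ℕ) (φ : V → V) : ℕ :=
  ∑ e ∈ Ed G sd, (ω (φ e.1) + ω (φ e.2))

/-- The coefficient of a pair (map, edge set). -/
noncomputable def coef (G : SimpleGraph V) [DecidableRel G.Adj] (sd : V → Bool) (a b b' : V)
    (c : V × V → Bool) (φ : V → V) (B : Finset (V × V)) : ℝ :=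
  if homE G sd φ then chiSum G sd φ B * ((-1) ^ (ov φ B a b').card *
    ((∏ e ∈ ov φ B a b, th (c e)) * ∏ e ∈ ov φ B a b', th (c e))) else 0

theorem expand_pow (ω : V → ℕ) (a b b' : V) (ks kt : ℕ) (τ : ℝ) (c : V × V → Bool) :
    ∑ x : V → V × (V → ℤˣ), ∏ e ∈ Ed G sd, ker G sd (fun u y => τ ^ (2 * (ω u + ω y)))
        (kap a b b' (τ ^ ks) (τ ^ kt) (c e)) (x e.1) (x e.2) =
      ∑ z ∈ (univ : Finset (V → V)) ×ˢ (Ed G sd).powerset,
        τ ^ (2 * wtB G sd ω z.1 + ks * (ov z.1 z.2 a b).card + kt * (ov z.1 z.2 a b').card) *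
          coef G sd a b b' c z.1 z.2 := by
  rw [expand _ (fun e => kap a b b' (τ ^ ks) (τ ^ kt) (c e)), Finset.sum_product]
  refine Finset.sum_congr rfl fun φ _ => Finset.sum_congr rfl fun B _ => ?_
  unfold coef
  split_ifs
  · rw [prod_kap, Finset.prod_pow_eq_pow_sum, ← Finset.mul_sum]
    unfold wtB
    simp only [pow_add, pow_mul]
    ring
  · simp

theorem stepB_true (hsd : ∀ u v, G.Adj u v → sd u ≠ sd v) {col : V → V → Bool}
    (hM : MaxIneq G sd col) {a b b' : V} (hb : G.Adj a b) (hb' : G.Adj a b')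
    (hc : col a b ≠ col a b') (ha : sd a = true) (ω : V → ℕ) :
    ∃ φ ψ : V → V, Over G sd col φ b ∧ Over G sd col ψ b' ∧
      wtB G sd ω φ + wtB G sd ω ψ ≤ 2 * wtB G sd ω id := by
  by_contra hno
  push Not at hno
  obtain ⟨ks, kt, k1, k2, k3⟩ := choose_k (fun n => ∃ φ, Over G sd col φ b ∧ wtB G sd ω φ = n)
    (fun n => ∃ φ, Over G sd col φ b' ∧ wtB G sd ω φ = n) (wtB G sd ω id) (by
      rintro _ _ ⟨φ, h1, rfl⟩ ⟨ψ, h2, rfl⟩
      exact hno φ ψ h1 h2)
  have o1 : ∀ y, G.Adj a y → ov id (Ed G sd) a y = {(a, y)} := by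
    intro y hy
    ext ⟨p, q⟩
    simp only [ov, Finset.mem_filter, id, Finset.mem_singleton, Prod.mk.injEq,
      and_iff_right_iff_imp]
    rintro ⟨rfl, rfl⟩
    exact mem_Ed.2 ⟨hy, ha⟩
  have main : ∀ i : Bool, ∀ᶠ τ : ℝ in 𝓝[>] 0,
      ∑ z ∈ (univ : Finset (V → V)) ×ˢ (Ed G sd).powerset,
        τ ^ (2 * wtB G sd ω z.1 + ks * (ov z.1 z.2 a b).card + kt * (ov z.1 z.2 a b').card) *
          (coef G sd a b b' (fun _ => i) z.1 z.2 -
            coef G sd a b b' (fun e => col e.1 e.2) z.1 z.2) < 0 := by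
    intro i
    refine neg_small _ _ _ (id, Ed G sd) (by simp) ?_ ?_
    · have hh : homE G sd id := fun e he => he
      simp only [coef, if_pos hh, o1 b hb, o1 b' hb', Finset.card_singleton,
        Finset.prod_singleton, th_mul_self, th_mul_ne hc]
      have := chiSum_id_pos hsd
      linarith
    · rintro ⟨φ, B⟩ hz hd
      have hB : B ⊆ Ed G sd := by simpa using hz
      simp only [o1 b hb, o1 b' hb', Finset.card_singleton, mul_one] at hd
      simp only [coef]
      split_ifs with hφ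
      swap
      · simp
      by_cases hL : chiSum G sd φ B = 0
      · simp [hL]
      have hL0 := chiSum_nonneg (G := G) (sd := sd) φ B
      have h3 : (ov φ B a b).card + (ov φ B a b').card < 3 := by
        by_contra h3
        have := k3 _ _ (not_lt.1 h3)
        omega
      have two : ∀ y y', G.Adj a y → G.Adj a y' → (ov φ B a y').card = 0 →
          (ov φ B a y).card = 2 → ¬Over G sd col φ y →
          ∏ e ∈ ov φ B a y, th (col e.1 e.2) = ∏ e ∈ ov φ B a y, th i := by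
        intro y y' hy hy' h0 h2 hn
        obtain ⟨g₁, g₂, hne, hg⟩ := Finset.card_eq_two.1 h2
        have : col g₁.1 g₁.2 = col g₂.1 g₂.2 := by
          by_contra hcc
          exact hn (over_of_two hsd hφ hB hL hy hy' h0 hg hcc)
        rw [hg, Finset.prod_pair hne, Finset.prod_pair hne, this, th_mul_self, th_mul_self]
      have hcases : ((ov φ B a b).card = 0 ∧ (ov φ B a b').card = 0) ∨
          ((ov φ B a b).card = 1 ∧ (ov φ B a b').card = 0) ∨
          ((ov φ B a b).card = 0 ∧ (ov φ B a b').card = 1) ∨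
          ((ov φ B a b).card = 1 ∧ (ov φ B a b').card = 1) ∨
          ((ov φ B a b).card = 2 ∧ (ov φ B a b').card = 0) ∨
          ((ov φ B a b).card = 0 ∧ (ov φ B a b').card = 2) := by omega
      rcases hcases with ⟨p, q⟩ | ⟨p, q⟩ | ⟨p, q⟩ | ⟨p, q⟩ | ⟨p, q⟩ | ⟨p, q⟩
      · rw [Finset.card_eq_zero.1 p, Finset.card_eq_zero.1 q]
        simp
      · exact absurd (not_one hsd hB hb hb' q p) hL
      · exact absurd (not_one hsd hB hb' hb p q) hL
      · obtain ⟨g, hg⟩ := Finset.card_eq_one.1 p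
        obtain ⟨g', hg'⟩ := Finset.card_eq_one.1 q
        simp only [hg, hg', Finset.card_singleton, Finset.prod_singleton, th_mul_self]
        have := mul_le_mul_of_nonneg_left (th_mul_le (col g.1 g.2) (col g'.1 g'.2)) hL0
        linarith
      · have hn : ¬Over G sd col φ b := fun ho => by
          have := k1 _ ⟨φ, ho, rfl⟩
          rw [p, q] at hd
          omega
        rw [two b b' hb hb' q p hn, Finset.card_eq_zero.1 q]
        simp
      · have hn : ¬Over G sd col φ b' := fun ho => by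
          have := k2 _ ⟨φ, ho, rfl⟩
          rw [p, q] at hd
          omega
        rw [two b' b hb' hb p q hn, Finset.card_eq_zero.1 p]
        simp
  obtain ⟨τ, h1, h2, h3⟩ := ((Filter.eventually_all.2 main).and
    (Ioc_mem_nhdsGT (zero_lt_one' ℝ))).exists
  have hp : ∀ n : ℕ, |τ ^ n| ≤ 1 := fun n => by
    rw [abs_of_pos (pow_pos h2 n)]
    exact pow_le_one₀ h2.le h3
  have : Nonempty V := ⟨a⟩
  obtain ⟨i, hi⟩ := hM (V × (V → ℤˣ)) (fun i => ker G sd (fun u y => τ ^ (2 * (ω u + ω y)))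
    (kap a b b' (τ ^ ks) (τ ^ kt) i)) fun i p q =>
      ker_nonneg (fun u y => (pow_pos h2 _).le) (abs_kap a b b' (hp ks) (hp kt) i) p q
  have e1 := expand_pow (G := G) (sd := sd) ω a b b' ks kt τ (fun e => col e.1 e.2)
  have e2 := expand_pow (G := G) (sd := sd) ω a b b' ks kt τ (fun _ => i)
  have h4 := h1 i
  simp only [mul_sub, Finset.sum_sub_distrib] at h4
  rw [← e1, ← e2] at h4
  linarith

omit [DecidableEq V] in
theorem prod_Ed_not (hsd : ∀ u v, G.Adj u v → sd u ≠ sd v) {M : Type} [CommMonoid M]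
    (F : V × V → M) : ∏ e ∈ Ed G (fun v => !sd v), F e = ∏ e ∈ Ed G sd, F e.swap := by
  refine Finset.prod_equiv (Equiv.prodComm V V) (fun ⟨u, v⟩ => ?_) (fun _ _ => rfl)
  change (u, v) ∈ _ ↔ (v, u) ∈ _
  rw [mem_Ed, mem_Ed]
  constructor
  · rintro ⟨h1, h2⟩
    have := hsd u v h1
    refine ⟨h1.symm, ?_⟩
    revert this h2
    cases sd u <;> cases sd v <;> simp
  · rintro ⟨h1, h2⟩
    have := hsd v u h1
    refine ⟨h1.symm, ?_⟩
    revert this h2
    cases sd u <;> cases sd v <;> simp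

theorem stepB : S_B := by
  intro V _ _ G _ sd col hsd hcol hM a b b' hb hb' hc ω
  cases ha : sd a
  swap
  · exact stepB_true hsd hM hb hb' hc ha ω
  have hM' : MaxIneq G (fun v => !sd v) col := by
    intro P _ _ _ f hf
    obtain ⟨i, hi⟩ := hM P (fun i p q => f i q p) fun i p q => hf i q p
    refine ⟨i, ?_⟩
    simp only [prod_Ed_not hsd, Prod.fst_swap, Prod.snd_swap]
    simpa only [hcol _ _] using hi
  obtain ⟨φ, ψ, h1, h2, h3⟩ := stepB_true (sd := fun v => !sd v)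
    (fun u v h => by simpa using hsd u v h) hM' hb hb' hc (by simp [ha]) ω
  have ho : ∀ {φ y}, Over G (fun v => !sd v) col φ y → Over G sd col φ y := by
    rintro φ y ⟨S, a0, b1, b2, hC, hr⟩
    exact ⟨S, a0, b1, b2, ⟨fun u v h => by simpa using hC.side u v h, hC.hom, hC.lift⟩, hr⟩
  have hw : ∀ φ, wtB G (fun v => !sd v) ω φ = ∑ e ∈ Ed G sd, (ω (φ e.1) + ω (φ e.2)) := by
    intro φ
    have := prod_Ed_not hsd (M := Multiplicative ℕ)
      (fun e => Multiplicative.ofAdd (ω (φ e.1) + ω (φ e.2)))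
    rw [← ofAdd_sum, ← ofAdd_sum] at this
    rw [wtB, Multiplicative.ofAdd.injective this]
    exact Finset.sum_congr rfl fun e _ => add_comm _ _
  rw [hw, hw, hw] at h3
  exact ⟨φ, ψ, ho h1, ho h2, h3⟩

end Pool.Agent.P.MP_16ad8c_co.OI
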