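import Pool.Agent.P.MP_16ad8c_co.OI.Iface

namespace Pool.Agent.P.MP_16ad8c_co.OI

open Finset

variable {V : Type} [Fintype V] [DecidableEq V]

/-- Step (A), symmetric form. -/
def SymIneq (G : SimpleGraph V) [DecidableRel G.Adj] (sd : V → Bool) (col : V → V → Bool) : Prop :=
  ∀ (P : Type) [Fintype P] [DecidableEq P] [Nonempty P] (f : Bool → P → P → ℝ),
    (∀ i p q, 0 ≤ f i p q) →
      ∑ x : V → P, ∏ e ∈ Ed G sd, f (col e.1 e.2) (x e.1) (x e.2) +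
        ∑ x : V → P, ∏ e ∈ Ed G sd, f (!col e.1 e.2) (x e.1) (x e.2) ≤
      ∑ x : V → P, ∏ e ∈ Ed G sd, f true (x e.1) (x e.2) +
        ∑ x : V → P, ∏ e ∈ Ed G sd, f false (x e.1) (x e.2)

/-- Two edges of different colours over the edge `a b`; none of the marked edges is over `a' b'`. -/
def Over2 (G : SimpleGraph V) (sd : V → Bool) (col : V → V → Bool) (φ : V → V) (a b a' : V) :
    Prop :=
  ∃ (S : Set V) (a1 b1 a2 b2 : V), Cover G sd φ S ∧ G.Adj a1 b1 ∧ G.Adj a2 b2 ∧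
    col a1 b1 ≠ col a2 b2 ∧ φ a1 = a ∧ φ a2 = a ∧ φ b1 = b ∧ φ b2 = b ∧
    (a1 ≠ a2 → a1 ∈ S ∧ a2 ∈ S) ∧ (b1 ≠ b2 → b1 ∈ S ∧ b2 ∈ S) ∧ (a = a' → a1 = a2)

/-- Step (B), for two arbitrary edges of different colours. -/
def S_B2 : Prop :=
  ∀ (V : Type) [Fintype V] [DecidableEq V] (G : SimpleGraph V) [DecidableRel G.Adj]
    (sd : V → Bool) (col : V → V → Bool), (∀ u v, G.Adj u v → sd u ≠ sd v) →
    (∀ u v, col u v = col v u) → SymIneq G sd col →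
    ∀ a b a' b' : V, G.Adj a b → G.Adj a' b' → sd a = sd a' → col a b ≠ col a' b' →
      ∀ ω : V → ℕ, ∃ φ ψ : V → V, Over2 G sd col φ a b a' ∧ Over2 G sd col ψ a' b' a ∧
        ∑ e ∈ Ed G sd, (ω (φ e.1) + ω (φ e.2)) + ∑ e ∈ Ed G sd, (ω (ψ e.1) + ω (ψ e.2)) ≤
          2 * ∑ e ∈ Ed G sd, (ω e.1 + ω e.2)

end Pool.Agent.P.MP_16ad8c_co.OI
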