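import Pool.Agent.P.MP_16ad8c_co.OI.StepB
import Pool.Agent.P.MP_16ad8c_co.OI.Iface2

namespace Pool.Agent.P.MP_16ad8c_co.OI

open Finset Filter Topology

variable {V : Type} [Fintype V] [DecidableEq V]
variable {G : SimpleGraph V} [DecidableRel G.Adj] {sd : V → Bool}

theorem mem_left (hsd : ∀ u v, G.Adj u v → sd u ≠ sd v) {φ : V → V} {B : Finset (V × V)}
    (hB : B ⊆ Ed G sd) (hL : chiSum G sd φ B ≠ 0) {a b : V} (hb : G.Adj a b) {u x : V}
    (hx : (u, x) ∈ ov φ B a b) (hu : ∀ x', (u, x') ∈ ov φ B a b → x' = x) :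
    ∀ y, G.Adj (φ u) y → sgn φ B u y = -1 := by
  intro y hy
  obtain ⟨hxB, h1, h2⟩ := Finset.mem_filter.1 hx
  have h1' : φ u = a := h1
  have s1 : sgn φ B u b = -1 := sgn_unique hsd hB (Or.inl hxB) h2 fun z hz h =>
    hu z (Finset.mem_filter.2
      ⟨hz.resolve_right fun h' => not_both hsd (hB hxB) (hB h'), h1, h⟩)
  rw [← s1]
  exact sgn_par hL hy (h1' ▸ hb)

theorem mem_right (hsd : ∀ u v, G.Adj u v → sd u ≠ sd v) {φ : V → V} {B : Finset (V × V)}
    (hB : B ⊆ Ed G sd) (hL : chiSum G sd φ B ≠ 0) {a b : V} (hb : G.Adj a b) {u x : V}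
    (hx : (u, x) ∈ ov φ B a b) (hu : ∀ u', (u', x) ∈ ov φ B a b → u' = u) :
    ∀ y, G.Adj (φ x) y → sgn φ B x y = -1 := by
  intro y hy
  obtain ⟨hxB, h1, h2⟩ := Finset.mem_filter.1 hx
  have h2' : φ x = b := h2
  have s1 : sgn φ B x a = -1 := sgn_unique hsd hB (Or.inr hxB) h1 fun z hz h =>
    hu z (Finset.mem_filter.2
      ⟨hz.resolve_left fun h' => not_both hsd (hB h') (hB hxB), h, h2⟩)
  rw [← s1]
  exact sgn_par hL hy (h2' ▸ hb.symm)

theorem over2_of_two (hsd : ∀ u v, G.Adj u v → sd u ≠ sd v) {col : V → V → Bool} {φ : V → V}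
    (hφ : homE G sd φ) {B : Finset (V × V)} (hB : B ⊆ Ed G sd) (hL : chiSum G sd φ B ≠ 0)
    {a b a' b' : V} (hb : G.Adj a b) (hb' : G.Adj a' b') (h0 : (ov φ B a' b').card = 0)
    {g₁ g₂ : V × V} (h2 : ov φ B a b = {g₁, g₂}) (hc : col g₁.1 g₁.2 ≠ col g₂.1 g₂.2) :
    Over2 G sd col φ a b a' := by
  have m1 : g₁ ∈ ov φ B a b := by simp [h2]
  have m2 : g₂ ∈ ov φ B a b := by simp [h2]
  obtain ⟨u₁, x₁⟩ := g₁
  obtain ⟨u₂, x₂⟩ := g₂
  have hm : ∀ u x, (u, x) ∈ ov φ B a b → (u = u₁ ∧ x = x₁) ∨ (u = u₂ ∧ x = x₂) := by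
    intro u x h
    rw [h2] at h
    simpa using h
  obtain ⟨k1, k2, k3⟩ := Finset.mem_filter.1 m1
  obtain ⟨k4, k5, k6⟩ := Finset.mem_filter.1 m2
  refine ⟨_, u₁, x₁, u₂, x₂, cover_of hsd hφ hB hL, (mem_Ed.1 (hB k1)).1, (mem_Ed.1 (hB k4)).1,
    hc, k2, k5, k3, k6, fun hne => ⟨?_, ?_⟩, fun hne => ⟨?_, ?_⟩, ?_⟩
  · exact mem_left hsd hB hL hb m1 fun x' h => ((hm _ _ h).resolve_right fun h' => hne h'.1).2
  · exact mem_left hsd hB hL hb m2 fun x' h =>
      ((hm _ _ h).resolve_left fun h' => hne h'.1.symm).2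
  · exact mem_right hsd hB hL hb m1 fun x' h => ((hm _ _ h).resolve_right fun h' => hne h'.2).1
  · exact mem_right hsd hB hL hb m2 fun x' h =>
      ((hm _ _ h).resolve_left fun h' => hne h'.2.symm).1
  · rintro rfl
    obtain ⟨⟨u, x⟩, h1, hne, heq⟩ := share hsd hB hL hb hb' (Finset.card_eq_zero.1 h0) m1
    rcases hm u x h1 with h | h
    · exact absurd (Prod.ext h.1 h.2) hne
    · exact heq.symm.trans h.1

/-- The perturbation factor for two arbitrary edges. -/
noncomputable def kap2 (a b a' b' : V) (s t : ℝ) (i : Bool) (u y : V) : ℝ :=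
  (if u = a ∧ y = b then th i * s else 1) * (if u = a' ∧ y = b' then -(th i * t) else 1)

omit [Fintype V] in
theorem abs_kap2 (a b a' b' : V) {s t : ℝ} (hs : |s| ≤ 1) (ht : |t| ≤ 1) (i : Bool) (u y : V) :
    |kap2 a b a' b' s t i u y| ≤ 1 := by
  unfold kap2
  rw [abs_mul]
  refine mul_le_one₀ ?_ (abs_nonneg _) ?_
  · split_ifs
    · rwa [abs_mul, abs_th, one_mul]
    · simp
  · split_ifs
    · rwa [abs_neg, abs_mul, abs_th, one_mul]
    · simp

omit [Fintype V] in
theorem prod_kap2 (a b a' b' : V) (s t : ℝ) (c : V × V → Bool) (φ : V → V)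
    (B : Finset (V × V)) :
    ∏ e ∈ B, kap2 a b a' b' s t (c e) (φ e.1) (φ e.2) =
      s ^ (ov φ B a b).card * t ^ (ov φ B a' b').card * ((-1) ^ (ov φ B a' b').card *
        ((∏ e ∈ ov φ B a b, th (c e)) * ∏ e ∈ ov φ B a' b', th (c e))) := by
  unfold kap2
  rw [Finset.prod_mul_distrib, ← Finset.prod_filter, ← Finset.prod_filter]
  change (∏ e ∈ ov φ B a b, th (c e) * s) * (∏ e ∈ ov φ B a' b', -(th (c e) * t)) = _
  rw [Finset.prod_neg, Finset.prod_mul_distrib, Finset.prod_mul_distrib, Finset.prod_const,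
    Finset.prod_const]
  ring

/-- The coefficient of a pair (map, edge set). -/
noncomputable def coef2 (G : SimpleGraph V) [DecidableRel G.Adj] (sd : V → Bool) (a b a' b' : V)
    (c : V × V → Bool) (φ : V → V) (B : Finset (V × V)) : ℝ :=
  if homE G sd φ then chiSum G sd φ B * ((-1) ^ (ov φ B a' b').card *
    ((∏ e ∈ ov φ B a b, th (c e)) * ∏ e ∈ ov φ B a' b', th (c e))) else 0

theorem expand_pow2 (ω : V → ℕ) (a b a' b' : V) (ks kt : ℕ) (τ : ℝ) (c : V × V → Bool) :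
    ∑ x : V → V × (V → ℤˣ), ∏ e ∈ Ed G sd, ker G sd (fun u y => τ ^ (2 * (ω u + ω y)))
        (kap2 a b a' b' (τ ^ ks) (τ ^ kt) (c e)) (x e.1) (x e.2) =
      ∑ z ∈ (univ : Finset (V → V)) ×ˢ (Ed G sd).powerset,
        τ ^ (2 * wtB G sd ω z.1 + ks * (ov z.1 z.2 a b).card + kt * (ov z.1 z.2 a' b').card) *
          coef2 G sd a b a' b' c z.1 z.2 := by
  rw [expand _ (fun e => kap2 a b a' b' (τ ^ ks) (τ ^ kt) (c e)), Finset.sum_product]
  refine Finset.sum_congr rfl fun φ _ => Finset.sum_congr rfl fun B _ => ?_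
  unfold coef2
  split_ifs
  · rw [prod_kap2, Finset.prod_pow_eq_pow_sum, ← Finset.mul_sum]
    unfold wtB
    simp only [pow_add, pow_mul]
    ring
  · simp

theorem th_not (i : Bool) : th (!i) = -th i := by cases i <;> simp [th]

theorem th_true : th true = 1 := by simp [th]

theorem th_false : th false = -1 := by simp [th]

theorem stepB2_true (hsd : ∀ u v, G.Adj u v → sd u ≠ sd v) {col : V → V → Bool}
    (hM : SymIneq G sd col) {a b a' b' : V} (hb : G.Adj a b) (hb' : G.Adj a' b')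
    (hc : col a b ≠ col a' b') (ha : sd a = true) (ha' : sd a' = true) (ω : V → ℕ) :
    ∃ φ ψ : V → V, Over2 G sd col φ a b a' ∧ Over2 G sd col ψ a' b' a ∧
      wtB G sd ω φ + wtB G sd ω ψ ≤ 2 * wtB G sd ω id := by
  by_contra hno
  push Not at hno
  obtain ⟨ks, kt, k1, k2, k3⟩ := choose_k
    (fun n => ∃ φ, Over2 G sd col φ a b a' ∧ wtB G sd ω φ = n)
    (fun n => ∃ φ, Over2 G sd col φ a' b' a ∧ wtB G sd ω φ = n) (wtB G sd ω id) (by
      rintro _ _ ⟨φ, h1, rfl⟩ ⟨ψ, h2, rfl⟩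
      exact hno φ ψ h1 h2)
  have o1 : ∀ x y, G.Adj x y → sd x = true → ov id (Ed G sd) x y = {(x, y)} := by
    intro x y hy hx
    ext ⟨p, q⟩
    simp only [ov, Finset.mem_filter, id, Finset.mem_singleton, Prod.mk.injEq,
      and_iff_right_iff_imp]
    rintro ⟨rfl, rfl⟩
    exact mem_Ed.2 ⟨hy, hx⟩
  have main : ∀ᶠ τ : ℝ in 𝓝[>] 0,
      ∑ z ∈ (univ : Finset (V → V)) ×ˢ (Ed G sd).powerset,
        τ ^ (2 * wtB G sd ω z.1 + ks * (ov z.1 z.2 a b).card + kt * (ov z.1 z.2 a' b').card) *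
          (coef2 G sd a b a' b' (fun _ => true) z.1 z.2 +
            coef2 G sd a b a' b' (fun _ => false) z.1 z.2 -
            (coef2 G sd a b a' b' (fun e => col e.1 e.2) z.1 z.2 +
              coef2 G sd a b a' b' (fun e => !col e.1 e.2) z.1 z.2)) < 0 := by
    refine neg_small _ _ _ (id, Ed G sd) (by simp) ?_ ?_
    · have hh : homE G sd id := fun e he => he
      simp only [coef2, if_pos hh, o1 a b hb ha, o1 a' b' hb' ha', Finset.card_singleton,
        Finset.prod_singleton, th_not, neg_mul_neg, th_mul_self, th_mul_ne hc]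
      have := chiSum_id_pos hsd
      linarith
    · rintro ⟨φ, B⟩ hz hd
      have hB : B ⊆ Ed G sd := by simpa using hz
      simp only [o1 a b hb ha, o1 a' b' hb' ha', Finset.card_singleton, mul_one] at hd
      simp only [coef2]
      split_ifs with hφ
      swap
      · simp
      by_cases hL : chiSum G sd φ B = 0
      · simp [hL]
      have hL0 := chiSum_nonneg (G := G) (sd := sd) φ B
      have h3 : (ov φ B a b).card + (ov φ B a' b').card < 3 := by
        by_contra h3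
        have := k3 _ _ (not_lt.1 h3)
        omega
      have two : ∀ x y x' y', G.Adj x y → G.Adj x' y' → (ov φ B x' y').card = 0 →
          (ov φ B x y).card = 2 → ¬Over2 G sd col φ x y x' →
          ∃ g₁ g₂, g₁ ≠ g₂ ∧ ov φ B x y = {g₁, g₂} ∧ col g₁.1 g₁.2 = col g₂.1 g₂.2 := by
        intro x y x' y' hy hy' h0 h2 hn
        obtain ⟨g₁, g₂, hne, hg⟩ := Finset.card_eq_two.1 h2
        refine ⟨g₁, g₂, hne, hg, ?_⟩
        by_contra hcc
        exact hn (over2_of_two hsd hφ hB hL hy hy' h0 hg hcc)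
      have hcases : ((ov φ B a b).card = 0 ∧ (ov φ B a' b').card = 0) ∨
          ((ov φ B a b).card = 1 ∧ (ov φ B a' b').card = 0) ∨
          ((ov φ B a b).card = 0 ∧ (ov φ B a' b').card = 1) ∨
          ((ov φ B a b).card = 1 ∧ (ov φ B a' b').card = 1) ∨
          ((ov φ B a b).card = 2 ∧ (ov φ B a' b').card = 0) ∨
          ((ov φ B a b).card = 0 ∧ (ov φ B a' b').card = 2) := by omega
      rcases hcases with ⟨p, q⟩ | ⟨p, q⟩ | ⟨p, q⟩ | ⟨p, q⟩ | ⟨p, q⟩ | ⟨p, q⟩
      · rw [Finset.card_eq_zero.1 p, Finset.card_eq_zero.1 q]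
        simp
      · obtain ⟨g, hg⟩ := Finset.card_eq_one.1 p
        rw [hg, Finset.card_eq_zero.1 q]
        simp [th_not, th_true, th_false]
      · obtain ⟨g, hg⟩ := Finset.card_eq_one.1 q
        rw [hg, Finset.card_eq_zero.1 p]
        simp [th_not, th_true, th_false]
      · obtain ⟨g, hg⟩ := Finset.card_eq_one.1 p
        obtain ⟨g', hg'⟩ := Finset.card_eq_one.1 q
        simp only [hg, hg', Finset.card_singleton, Finset.prod_singleton, th_not, neg_mul_neg,
          th_mul_self]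
        have := mul_le_mul_of_nonneg_left (th_mul_le (col g.1 g.2) (col g'.1 g'.2)) hL0
        linarith
      · have hn : ¬Over2 G sd col φ a b a' := fun ho => by
          have := k1 _ ⟨φ, ho, rfl⟩
          rw [p, q] at hd
          omega
        obtain ⟨g₁, g₂, hne, hg, hcc⟩ := two a b a' b' hb hb' q p hn
        rw [hg, Finset.card_eq_zero.1 q]
        simp only [Finset.prod_pair hne, hcc, th_mul_self]
        simp
      · have hn : ¬Over2 G sd col φ a' b' a := fun ho => by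
          have := k2 _ ⟨φ, ho, rfl⟩
          rw [p, q] at hd
          omega
        obtain ⟨g₁, g₂, hne, hg, hcc⟩ := two a' b' a b hb' hb p q hn
        rw [hg, Finset.card_eq_zero.1 p]
        simp only [Finset.prod_pair hne, hcc, th_mul_self]
        simp
  obtain ⟨τ, h4, h2, h3⟩ := (main.and (Ioc_mem_nhdsGT (zero_lt_one' ℝ))).exists
  have hp : ∀ n : ℕ, |τ ^ n| ≤ 1 := fun n => by
    rw [abs_of_pos (pow_pos h2 n)]
    exact pow_le_one₀ h2.le h3
  have : Nonempty V := ⟨a⟩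
  have hi := hM (V × (V → ℤˣ)) (fun i => ker G sd (fun u y => τ ^ (2 * (ω u + ω y)))
    (kap2 a b a' b' (τ ^ ks) (τ ^ kt) i)) fun i p q =>
      ker_nonneg (fun u y => (pow_pos h2 _).le) (abs_kap2 a b a' b' (hp ks) (hp kt) i) p q
  have e1 := expand_pow2 (G := G) (sd := sd) ω a b a' b' ks kt τ (fun e => col e.1 e.2)
  have e2 := expand_pow2 (G := G) (sd := sd) ω a b a' b' ks kt τ (fun e => !col e.1 e.2)
  have e3 := expand_pow2 (G := G) (sd := sd) ω a b a' b' ks kt τ (fun _ => true)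
  have e4 := expand_pow2 (G := G) (sd := sd) ω a b a' b' ks kt τ (fun _ => false)
  simp only [mul_sub, mul_add, Finset.sum_sub_distrib, Finset.sum_add_distrib] at h4
  rw [← e1, ← e2, ← e3, ← e4] at h4
  linarith

theorem stepB2 : S_B2 := by
  intro V _ _ G _ sd col hsd hcol hM a b a' b' hb hb' haa hc ω
  cases ha : sd a
  swap
  · exact stepB2_true hsd hM hb hb' hc ha (haa ▸ ha) ω
  have hM' : SymIneq G (fun v => !sd v) col := by
    intro P _ _ _ f hf
    have hi := hM P (fun i p q => f i q p) fun i p q => hf i q p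
    simp only [prod_Ed_not hsd, Prod.fst_swap, Prod.snd_swap]
    simpa only [hcol _ _] using hi
  obtain ⟨φ, ψ, h1, h2, h3⟩ := stepB2_true (sd := fun v => !sd v)
    (fun u v h => by simpa using hsd u v h) hM' hb hb' hc (by simp [ha]) (by simp [← haa, ha]) ω
  have ho : ∀ {φ x y z}, Over2 G (fun v => !sd v) col φ x y z → Over2 G sd col φ x y z := by
    rintro φ x y z ⟨S, a1, b1, a2, b2, hC, hr⟩
    exact ⟨S, a1, b1, a2, b2, ⟨fun u v h => by simpa using hC.side u v h, hC.hom, hC.lift⟩, hr⟩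
  have hw : ∀ φ, wtB G (fun v => !sd v) ω φ = ∑ e ∈ Ed G sd, (ω (φ e.1) + ω (φ e.2)) := by
    intro φ
    have := prod_Ed_not hsd (M := Multiplicative ℕ)
      (fun e => Multiplicative.ofAdd (ω (φ e.1) + ω (φ e.2)))
    rw [← ofAdd_sum, ← ofAdd_sum] at this
    rw [wtB, Multiplicative.ofAdd.injective this]
    exact Finset.sum_congr rfl fun e _ => add_comm _ _
  rw [hw, hw, hw] at h3
  exact ⟨φ, ψ, ho h1, ho h2, h3⟩

end Pool.Agent.P.MP_16ad8c_co.OI
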