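import Pool.Agent.P.MP_16ad8c_co.OI.Iface

namespace Pool.Agent.P.MP_16ad8c_co.OI

open Finset

variable {V : Type} [Fintype V] [DecidableEq V]

section Defs

variable (G : SimpleGraph V) [DecidableRel G.Adj] (sd : V → Bool)

/-- The signs at the neighbours of `u` multiply to one. -/
def ev (u : V) (σ : V → ℤˣ) : Prop := ∏ y ∈ univ.filter (G.Adj u), σ y = 1

instance (u : V) (σ : V → ℤˣ) : Decidable (ev G u σ) := by
  unfold ev
  infer_instance

/-- Admissible sign systems along a map. -/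
def good (φ : V → V) (s : V → V → ℤˣ) : Prop :=
  ∀ e ∈ Ed G sd, ev G (φ e.1) (s e.1) ∧ ev G (φ e.2) (s e.2)

instance (φ : V → V) (s : V → V → ℤˣ) : Decidable (good G sd φ s) := by
  unfold good
  infer_instance

/-- The map sends oriented edges to oriented edges. -/
def homE (φ : V → V) : Prop := ∀ e ∈ Ed G sd, (φ e.1, φ e.2) ∈ Ed G sd

instance (φ : V → V) : Decidable (homE G sd φ) := by
  unfold homE
  infer_instance

/-- The character of a set of edges. -/
def chi (φ : V → V) (B : Finset (V × V)) (s : V → V → ℤˣ) : ℤˣ :=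
  ∏ e ∈ B, s e.1 (φ e.2) * s e.2 (φ e.1)

/-- The character sum. -/
noncomputable def chiSum (φ : V → V) (B : Finset (V × V)) : ℝ :=
  ∑ s : V → V → ℤˣ, if good G sd φ s then (((chi φ B s : ℤˣ) : ℤ) : ℝ) else 0

/-- The sign system with one minus sign. -/
def one (v y : V) : V → V → ℤˣ := fun u z => if u = v ∧ z = y then -1 else 1

/-- The parity of the number of edges of `B` at `v` over `y`. -/
def sgn (φ : V → V) (B : Finset (V × V)) (v y : V) : ℤˣ := chi φ B (one v y)

end Defs

variable {G : SimpleGraph V} [DecidableRel G.Adj] {sd : V → Bool}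

omit [DecidableEq V] in
theorem mem_Ed {u v : V} : (u, v) ∈ Ed G sd ↔ G.Adj u v ∧ sd u = true := by
  simp [Ed]

omit [Fintype V] [DecidableEq V] in
theorem chi_mul (φ : V → V) (B : Finset (V × V)) (s t : V → V → ℤˣ) :
    chi φ B (s * t) = chi φ B s * chi φ B t := by
  unfold chi
  rw [← Finset.prod_mul_distrib]
  refine Finset.prod_congr rfl fun e _ => ?_
  simp only [Pi.mul_apply]
  exact mul_mul_mul_comm _ _ _ _

omit [DecidableEq V] in
theorem ev_mul {u : V} {σ τ : V → ℤˣ} (h : ev G u τ) : ev G u (σ * τ) ↔ ev G u σ := by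
  unfold ev at *
  simp only [Pi.mul_apply, Finset.prod_mul_distrib, h, mul_one]

omit [DecidableEq V] in
theorem good_mul {φ : V → V} {s t : V → V → ℤˣ} (h : good G sd φ t) :
    good G sd φ (s * t) ↔ good G sd φ s := by
  unfold good at *
  refine forall₂_congr fun e he => ?_
  rw [Pi.mul_apply, Pi.mul_apply, ev_mul (h e he).1, ev_mul (h e he).2]

theorem chi_eq_one {φ : V → V} {B : Finset (V × V)} (hL : chiSum G sd φ B ≠ 0)
    {t : V → V → ℤˣ} (ht : good G sd φ t) : chi φ B t = 1 := by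
  rcases Int.units_eq_one_or (chi φ B t) with h | h
  · exact h
  exfalso
  apply hL
  have key : chiSum G sd φ B = -chiSum G sd φ B := by
    conv_lhs => unfold chiSum
    rw [← Equiv.sum_comp (Equiv.mulRight t)]
    unfold chiSum
    rw [← Finset.sum_neg_distrib]
    refine Finset.sum_congr rfl fun s _ => ?_
    simp only [Equiv.coe_mulRight, good_mul ht, chi_mul, h]
    split_ifs <;> simp
  linarith

theorem chiSum_nonneg (φ : V → V) (B : Finset (V × V)) : 0 ≤ chiSum G sd φ B := by
  by_cases hL : chiSum G sd φ B = 0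
  · exact hL.ge
  refine Finset.sum_nonneg fun s _ => ?_
  split_ifs with hs
  · rw [chi_eq_one hL hs]
    simp
  · exact le_rfl

theorem chiSum_id_pos (hsd : ∀ u v, G.Adj u v → sd u ≠ sd v) :
    0 < chiSum G sd id (Ed G sd) := by
  have h1 : ∀ s, good G sd id s → chi id (Ed G sd) s = 1 := by
    intro s hs
    unfold chi
    rw [Finset.prod_mul_distrib]
    have a1 : ∏ e ∈ Ed G sd, s e.1 (id e.2) = 1 := by
      unfold Ed
      rw [Finset.prod_filter, Fintype.prod_prod_type]
      refine Finset.prod_eq_one fun u _ => ?_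
      by_cases h : ∃ y, G.Adj u y ∧ sd u = true
      · obtain ⟨y, hy⟩ := h
        have := (hs (u, y) (mem_Ed.2 hy)).1
        unfold ev at this
        rw [Finset.prod_filter] at this
        simpa [hy.2] using this
      · exact Finset.prod_eq_one fun y _ => if_neg fun hy => h ⟨y, hy⟩
    have a2 : ∏ e ∈ Ed G sd, s e.2 (id e.1) = 1 := by
      unfold Ed
      rw [Finset.prod_filter, Fintype.prod_prod_type_right]
      refine Finset.prod_eq_one fun y _ => ?_
      by_cases h : ∃ u, G.Adj u y ∧ sd u = true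
      · obtain ⟨u, hu⟩ := h
        have := (hs (u, y) (mem_Ed.2 hu)).2
        unfold ev at this
        rw [Finset.prod_filter] at this
        refine Eq.trans (Finset.prod_congr rfl fun x _ => ?_) this
        have hy : sd y = false := by
          have := hsd u y hu.1
          rw [hu.2] at this
          simpa using this.symm
        have : (G.Adj x y ∧ sd x = true) ↔ G.Adj y x := by
          refine ⟨fun h => h.1.symm, fun h => ⟨h.symm, ?_⟩⟩
          have := hsd y x h
          rw [hy] at this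
          simpa using this.symm
        simp only [this, id]
      · exact Finset.prod_eq_one fun u _ => if_neg fun hu => h ⟨u, hu⟩
    rw [a1, a2, mul_one]
  refine Finset.sum_pos' (fun s _ => ?_) ⟨1, Finset.mem_univ _, ?_⟩
  · split_ifs with hs
    · rw [h1 s hs]
      simp
    · exact le_rfl
  · have hs : good G sd id (1 : V → V → ℤˣ) := fun e _ => by simp [ev]
    rw [if_pos hs, h1 _ hs]
    simp

theorem sgn_par {φ : V → V} {B : Finset (V × V)} (hL : chiSum G sd φ B ≠ 0) {v y y' : V}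
    (hy : G.Adj (φ v) y) (hy' : G.Adj (φ v) y') : sgn φ B v y = sgn φ B v y' := by
  have hp : ∀ z, G.Adj (φ v) z → ∏ x ∈ univ.filter (G.Adj (φ v)), one v z v x = -1 := by
    intro z hz
    rw [Finset.prod_eq_single z]
    · simp [one]
    · intro x _ hx
      simp [one, hx]
    · intro h
      exact absurd (by simpa using hz) h
  have hev : ∀ u, ev G (φ u) ((one v y * one v y') u) := by
    intro u
    unfold ev
    by_cases hu : u = v
    · subst hu
      simp only [Pi.mul_apply, Finset.prod_mul_distrib, hp y hy, hp y' hy']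
      simp
    · exact Finset.prod_eq_one fun x _ => by simp [one, hu]
  have h := chi_eq_one hL (t := one v y * one v y') fun e _ => ⟨hev _, hev _⟩
  rw [chi_mul] at h
  unfold sgn
  rcases Int.units_eq_one_or (chi φ B (one v y)) with h1 | h1 <;>
    rcases Int.units_eq_one_or (chi φ B (one v y')) with h2 | h2 <;> simp_all

/-- Darts of a set of oriented edges. -/
def Dart (B : Finset (V × V)) (v x : V) : Prop := (v, x) ∈ B ∨ (x, v) ∈ B

omit [Fintype V] in
theorem sgn_none {φ : V → V} {B : Finset (V × V)} {v y : V} (h : ∀ x, Dart B v x → φ x ≠ y) :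
    sgn φ B v y = 1 := by
  refine Finset.prod_eq_one fun e he => ?_
  obtain ⟨p, q⟩ := e
  have a1 : one v y p (φ q) = 1 := if_neg fun hc => by
    obtain ⟨rfl, hc⟩ := hc
    exact h q (Or.inl he) hc
  have a2 : one v y q (φ p) = 1 := if_neg fun hc => by
    obtain ⟨rfl, hc⟩ := hc
    exact h p (Or.inr he) hc
  simp only [a1, a2, mul_one]

omit [DecidableEq V] in
theorem not_both (hsd : ∀ u v, G.Adj u v → sd u ≠ sd v) {u x y : V} (h1 : (u, x) ∈ Ed G sd)
    (h2 : (y, u) ∈ Ed G sd) : False :=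
  hsd y u (mem_Ed.1 h2).1 ((mem_Ed.1 h2).2.trans (mem_Ed.1 h1).2.symm)

theorem sgn_unique (hsd : ∀ u v, G.Adj u v → sd u ≠ sd v) {φ : V → V} {B : Finset (V × V)}
    (hB : B ⊆ Ed G sd) {v x y : V} (hx : Dart B v x) (hxy : φ x = y)
    (h : ∀ x', Dart B v x' → φ x' = y → x' = x) : sgn φ B v y = -1 := by
  have hne : x ≠ v := by
    rintro rfl
    rcases hx with hx | hx <;> exact (mem_Ed.1 (hB hx)).1.ne rfl
  unfold sgn chi
  rcases hx with hx | hx
  · rw [Finset.prod_eq_single (v, x)]
    · simp [one, hxy, hne]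
    · rintro ⟨p, q⟩ he hne'
      have a1 : one v y p (φ q) = 1 := if_neg fun hc => by
        obtain ⟨rfl, hc⟩ := hc
        exact hne' (by rw [h q (Or.inl he) hc])
      have a2 : one v y q (φ p) = 1 := if_neg fun hc => by
        obtain ⟨rfl, _⟩ := hc
        exact not_both hsd (hB hx) (hB he)
      simp only [a1, a2, mul_one]
    · exact fun h => absurd hx h
  · rw [Finset.prod_eq_single (x, v)]
    · simp [one, hxy, hne]
    · rintro ⟨p, q⟩ he hne'
      have a1 : one v y p (φ q) = 1 := if_neg fun hc => by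
        obtain ⟨rfl, _⟩ := hc
        exact not_both hsd (hB he) (hB hx)
      have a2 : one v y q (φ p) = 1 := if_neg fun hc => by
        obtain ⟨rfl, hc⟩ := hc
        exact hne' (by rw [h p (Or.inr he) hc])
      simp only [a1, a2, mul_one]
    · exact fun h => absurd hx h

omit [DecidableEq V] in
theorem Dart.adj {B : Finset (V × V)} (hB : B ⊆ Ed G sd) {v x : V} (h : Dart B v x) :
    G.Adj v x := by
  rcases h with h | h
  · exact (mem_Ed.1 (hB h)).1
  · exact (mem_Ed.1 (hB h)).1.symm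

theorem cover_of (hsd : ∀ u v, G.Adj u v → sd u ≠ sd v) {φ : V → V} (hφ : homE G sd φ)
    {B : Finset (V × V)} (hB : B ⊆ Ed G sd) (hL : chiSum G sd φ B ≠ 0) :
    Cover G sd φ {v | ∀ y, G.Adj (φ v) y → sgn φ B v y = -1} := by
  have key : ∀ u v, G.Adj u v → sd (φ u) = sd u ∧ G.Adj (φ u) (φ v) := by
    intro u v huv
    cases hu : sd u
    · have hv : sd v = true := by
        have := hsd u v huv
        rw [hu] at this
        simpa using this.symm
      have h1 := mem_Ed.1 (hφ (v, u) (mem_Ed.2 ⟨huv.symm, hv⟩))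
      refine ⟨?_, h1.1.symm⟩
      have := hsd _ _ h1.1
      rw [h1.2] at this
      simpa using this.symm
    · have h1 := mem_Ed.1 (hφ (u, v) (mem_Ed.2 ⟨huv, hu⟩))
      exact ⟨h1.2, h1.1⟩
  refine ⟨fun u v h => (key u v h).1, fun u v h => (key u v h).2, fun v hv y hy => ?_⟩
  have h1 : ¬∀ x, Dart B v x → φ x ≠ y := fun h => by
    have := hv y hy
    rw [sgn_none h] at this
    exact absurd this (by decide)
  push Not at h1
  obtain ⟨x, hx, hxy⟩ := h1
  refine ⟨x, hx.adj hB, hxy, fun hu z hz => ?_⟩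
  have h2 : sgn φ B x (φ v) = -1 :=
    sgn_unique hsd hB (Or.symm hx) rfl fun x' hx' h => hu x' (hx'.adj hB).symm h
  rw [← h2]
  exact sgn_par hL hz (hxy ▸ hy.symm)

/-- The edges of `B` over the oriented pair `(a, y)`. -/
def ov (φ : V → V) (B : Finset (V × V)) (a y : V) : Finset (V × V) :=
  B.filter fun g => φ g.1 = a ∧ φ g.2 = y

theorem share (hsd : ∀ u v, G.Adj u v → sd u ≠ sd v) {φ : V → V} {B : Finset (V × V)}
    (hB : B ⊆ Ed G sd) (hL : chiSum G sd φ B ≠ 0) {a b b' : V} (hb : G.Adj a b)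
    (hb' : G.Adj a b') (h0 : ov φ B a b' = ∅) {g : V × V} (hg : g ∈ ov φ B a b) :
    ∃ g' ∈ ov φ B a b, g' ≠ g ∧ g'.1 = g.1 := by
  obtain ⟨u, x⟩ := g
  obtain ⟨hgB, hu, hx⟩ := Finset.mem_filter.1 hg
  have hd : ∀ x', Dart B u x' → (u, x') ∈ B := fun x' h =>
    h.resolve_right fun h' => not_both hsd (hB hgB) (hB h')
  by_contra hc
  push Not at hc
  have s1 : sgn φ B u b = -1 := sgn_unique hsd hB (Or.inl hgB) hx fun x' hx' h => by
    by_contra hne
    exact hc (u, x') (Finset.mem_filter.2 ⟨hd x' hx', hu, h⟩) (by simpa using hne) rfl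
  have s2 : sgn φ B u b' = 1 := sgn_none fun x' hx' h => by
    have : (u, x') ∈ ov φ B a b' := Finset.mem_filter.2 ⟨hd x' hx', hu, h⟩
    rw [h0] at this
    exact absurd this (Finset.notMem_empty _)
  have hu' : φ u = a := hu
  rw [sgn_par hL (hu' ▸ hb) (hu' ▸ hb'), s2] at s1
  exact absurd s1 (by decide)

theorem not_one (hsd : ∀ u v, G.Adj u v → sd u ≠ sd v) {φ : V → V} {B : Finset (V × V)}
    (hB : B ⊆ Ed G sd) {a b b' : V} (hb : G.Adj a b) (hb' : G.Adj a b')
    (h0 : (ov φ B a b').card = 0) (h1 : (ov φ B a b).card = 1) : chiSum G sd φ B = 0 := by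
  by_contra hL
  obtain ⟨g, hg⟩ := Finset.card_eq_one.1 h1
  obtain ⟨g', h1, h2, -⟩ := share hsd hB hL hb hb' (Finset.card_eq_zero.1 h0)
    (g := g) (by simp [hg])
  rw [hg] at h1
  exact h2 (Finset.mem_singleton.1 h1)

theorem over_of_two (hsd : ∀ u v, G.Adj u v → sd u ≠ sd v) {col : V → V → Bool} {φ : V → V}
    (hφ : homE G sd φ) {B : Finset (V × V)} (hB : B ⊆ Ed G sd) (hL : chiSum G sd φ B ≠ 0)
    {a b b' : V} (hb : G.Adj a b) (hb' : G.Adj a b') (h0 : (ov φ B a b').card = 0)
    {g₁ g₂ : V × V} (h2 : ov φ B a b = {g₁, g₂}) (hc : col g₁.1 g₁.2 ≠ col g₂.1 g₂.2) :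
    Over G sd col φ b := by
  have m1 : g₁ ∈ ov φ B a b := by simp [h2]
  have m2 : g₂ ∈ ov φ B a b := by simp [h2]
  obtain ⟨g', h1, hne, heq⟩ := share hsd hB hL hb hb' (Finset.card_eq_zero.1 h0) m1
  have hg' : g' = g₂ := by
    rw [h2] at h1
    simpa [hne] using h1
  subst hg'
  obtain ⟨u, x₁⟩ := g₁
  obtain ⟨u', x₂⟩ := g'
  obtain rfl : u' = u := heq
  have hS : ∀ x, (u', x) ∈ ov φ B a b → ∀ y, G.Adj (φ x) y → sgn φ B x y = -1 := by
    intro x hx y hy
    obtain ⟨hxB, hu, hxb⟩ := Finset.mem_filter.1 hx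
    have hu' : φ u' = a := hu
    have hxb' : φ x = b := hxb
    have s1 : sgn φ B x a = -1 := sgn_unique hsd hB (Or.inr hxB) hu' fun z hz h => by
      have hz' : (z, x) ∈ B := hz.resolve_left fun h' => not_both hsd (hB h') (hB hxB)
      have : (z, x) ∈ ov φ B a b := Finset.mem_filter.2 ⟨hz', h, hxb⟩
      rw [h2] at this
      simp only [Finset.mem_insert, Finset.mem_singleton, Prod.mk.injEq] at this
      rcases this with h | h <;> exact h.1
    rw [← s1]
    exact sgn_par hL hy (hxb' ▸ hb.symm)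
  obtain ⟨k1, -, k2⟩ := Finset.mem_filter.1 m1
  obtain ⟨k3, -, k4⟩ := Finset.mem_filter.1 m2
  exact ⟨_, u', x₁, x₂, cover_of hsd hφ hB hL, (mem_Ed.1 (hB k1)).1, (mem_Ed.1 (hB k3)).1, hc,
    k2, k4, hS x₁ m1, hS x₂ m2⟩

end Pool.Agent.P.MP_16ad8c_co.OI
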