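import Pool.Agent.P.MP_16ad8c_co.OI.Halves
import Pool.Agent.P.MP_16ad8c_co.OI.Iface2

namespace Pool.Agent.P.MP_16ad8c_co.OI

open Finset

set_option linter.unusedSectionVars false

variable {V : Type} [Fintype V] [DecidableEq V] {G : SimpleGraph V} [DecidableRel G.Adj]

/-- The sum of the degrees over a fibre. -/
def D (G : SimpleGraph V) [DecidableRel G.Adj] (φ : V → V) (u : V) : ℕ :=
  ∑ v ∈ univ.filter (fun v => φ v = u), G.degree v

theorem sum_Ed {sd : V → Bool} (hsd : ∀ u v, G.Adj u v → sd u ≠ sd v) (f : V → ℕ) :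
    ∑ e ∈ Ed G sd, (f e.1 + f e.2) = ∑ v, G.degree v * f v := by
  have h1 : ∀ v, G.degree v * f v = ∑ x, if G.Adj v x then f v else 0 := by
    intro v
    rw [← Finset.sum_filter, Finset.sum_const, smul_eq_mul, ← G.card_neighborFinset_eq_degree,
      G.neighborFinset_eq_filter]
  simp only [h1]
  rw [Ed, Finset.sum_filter, Fintype.sum_prod_type]
  have h2 : ∀ v x, (if G.Adj v x then f v else 0) =
      (if G.Adj v x ∧ sd v = true then f v else 0) +
        (if G.Adj x v ∧ sd x = true then f v else 0) := by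
    intro v x
    by_cases a : G.Adj v x
    · have := hsd _ _ a
      have a' := a.symm
      revert this
      cases sd v <;> cases sd x <;> simp [a, a']
    · have a' : ¬ G.Adj x v := fun c => a c.symm
      simp [a, a']
  simp only [h2, Finset.sum_add_distrib]
  rw [Finset.sum_comm (f := fun v x => if G.Adj x v ∧ sd x = true then f v else 0),
    ← Finset.sum_add_distrib]
  refine Finset.sum_congr rfl fun v _ => ?_
  rw [← Finset.sum_add_distrib]
  refine Finset.sum_congr rfl fun x _ => ?_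
  split_ifs <;> rfl

theorem sum_D (φ : V → V) (ω : V → ℕ) :
    ∑ v, G.degree v * ω (φ v) = ∑ u, D G φ u * ω u := by
  rw [← Finset.sum_fiberwise univ φ]
  refine Finset.sum_congr rfl fun u _ => ?_
  rw [D, Finset.sum_mul]
  exact Finset.sum_congr rfl fun v hv => by rw [(Finset.mem_filter.1 hv).2]

theorem surj_nbr {sd : V → Bool} {φ : V → V} {S : Set V} (hc : Cover G sd φ S) {v : V}
    (hv : v ∈ S) : G.neighborFinset (φ v) ⊆ (G.neighborFinset v).image φ := by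
  intro y hy
  obtain ⟨x, h1, h2, -⟩ := hc.lift v hv y (by simpa using hy)
  exact Finset.mem_image.2 ⟨x, by simpa using h1, h2⟩

theorem deg_le {sd : V → Bool} {φ : V → V} {S : Set V} (hc : Cover G sd φ S) {v : V}
    (hv : v ∈ S) : G.degree (φ v) ≤ G.degree v :=
  (Finset.card_le_card (surj_nbr hc hv)).trans Finset.card_image_le

theorem inj_of_deg {sd : V → Bool} {φ : V → V} {S : Set V} (hc : Cover G sd φ S) {v : V}
    (hv : v ∈ S) (hd : G.degree v ≤ G.degree (φ v)) {x y : V} (hx : G.Adj v x) (hy : G.Adj v y)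
    (e : φ x = φ y) : x = y := by
  have h1 : ((G.neighborFinset v).image φ).card = (G.neighborFinset v).card :=
    le_antisymm Finset.card_image_le (hd.trans (Finset.card_le_card (surj_nbr hc hv)))
  exact Finset.card_image_iff.1 h1 (by simpa using hx) (by simpa using hy) e

theorem D_ge (φ : V → V) {u : V} (T : Finset V) (hT : ∀ v ∈ T, φ v = u) :
    ∑ v ∈ T, G.degree v ≤ D G φ u :=
  Finset.sum_le_sum_of_subset fun v hv => Finset.mem_filter.2 ⟨Finset.mem_univ _, hT v hv⟩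

/-- The part of `Twin` that does not need the weights. -/
structure Pre (G : SimpleGraph V) (φ : V → V) (S : Set V) (A B I : Finset V) : Prop where
  subA : ∀ v ∈ A, v ∈ S
  subB : ∀ v ∈ B, v ∈ S
  bijA : Set.BijOn φ A I
  bijB : Set.BijOn φ B I
  sep : ∀ u ∈ A, ∀ v ∈ B, u ≠ v ∧ ¬ G.Adj u v

theorem Pre.two_le {sd : V → Bool} {φ : V → V} {S : Set V} {A B I : Finset V}
    (h : Pre G φ S A B I) (hc : Cover G sd φ S) {u : V} (hu : u ∈ I) :
    2 * G.degree u ≤ D G φ u := by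
  obtain ⟨v, hv, e⟩ := h.bijA.surjOn hu
  obtain ⟨w, hw, e'⟩ := h.bijB.surjOn hu
  have h1 := D_ge (G := G) φ (u := u) {v, w} (by simp [e, e'])
  rw [Finset.sum_pair (h.sep v hv w hw).1] at h1
  have h2 := deg_le hc (h.subA v hv)
  have h3 := deg_le hc (h.subB w hw)
  rw [e] at h2
  rw [e'] at h3
  omega

theorem Pre.twin {sd : V → Bool} {φ : V → V} {S : Set V} {A B I : Finset V}
    (h : Pre G φ S A B I) (hc : Cover G sd φ S) (hD : ∀ u ∈ I, D G φ u ≤ 2 * G.degree u) :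
    Twin G φ S A B I := by
  have key : ∀ v x, G.Adj v x → φ v ∈ I → (v ∈ A ∨ v ∈ B) ∧ G.degree v ≤ G.degree (φ v) := by
    intro v x hvx hu
    obtain ⟨a, ha, e⟩ := h.bijA.surjOn hu
    obtain ⟨b, hb, e'⟩ := h.bijB.surjOn hu
    have hab := (h.sep a ha b hb).1
    have h1 := D_ge (G := G) φ (u := φ v) {a, b} (by simp [e, e'])
    rw [Finset.sum_pair hab] at h1
    have h2 := deg_le hc (h.subA a ha)
    have h3 := deg_le hc (h.subB b hb)
    have h4 := hD _ hu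
    rw [e] at h2
    rw [e'] at h3
    by_cases va : v = a
    · subst va; exact ⟨Or.inl ha, by omega⟩
    · by_cases vb : v = b
      · subst vb; exact ⟨Or.inr hb, by omega⟩
      · have h5 := D_ge (G := G) φ (u := φ v) {v, a, b} (by simp [e, e'])
        rw [Finset.sum_insert (by simp [va, vb]), Finset.sum_pair hab] at h5
        have h6 : 0 < G.degree v := (G.degree_pos_iff_exists_adj v).2 ⟨x, hvx⟩
        omega
  refine ⟨h.subA, h.subB, h.bijA, h.bijB, h.sep, fun v x a b => (key v x a b).1,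
    fun v x y a b c e => ?_⟩
  obtain ⟨h1, h2⟩ := key v x a c
  exact inj_of_deg hc (h1.elim (h.subA v) (h.subB v)) h2 a b e

theorem not_over {φ : V → V} {u : V} (h : D G φ u = 0) {v x : V} (a : G.Adj v x) : φ v ≠ u := by
  intro e
  have h1 := D_ge (G := G) φ (u := u) {v} (by simp [e])
  have h6 : 0 < G.degree v := (G.degree_pos_iff_exists_adj v).2 ⟨x, a⟩
  rw [Finset.sum_singleton] at h1
  omega

theorem grow_im {sd : V → Bool} {φ : V → V} {S : Set V} (hc : Cover G sd φ S) {j : ℕ}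
    {b b' : Finset V} (h0 : ∀ u ∈ hf G j b' b, D G φ u = 0) {x u : V} (hx : x ∈ S)
    (hu : u ∈ hf G j b b') (a : G.Adj u (φ x)) : φ x ∈ hf G (j + 1) b b' := by
  refine mem_succ.2 (Or.inr ⟨⟨u, hu, a⟩, fun z hz c => ?_⟩)
  obtain ⟨w, h1, h2, -⟩ := hc.lift x hx z c.symm
  exact not_over (h0 z hz) h1.symm h2

theorem grow {sd : V → Bool} {φ : V → V} {S : Set V} (hc : Cover G sd φ S) {j : ℕ}
    {b b' b1 b2 : Finset V} (h : Twin G φ S (hf G j b1 b2) (hf G j b2 b1) (hf G j b b'))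
    (h0 : ∀ u ∈ hf G j b' b, D G φ u = 0)
    (hs : ∀ u ∈ hf G (j + 1) b1 b2, ∀ v ∈ hf G (j + 1) b2 b1, u ≠ v ∧ ¬ G.Adj u v) :
    (∀ v ∈ hf G (j + 1) b1 b2, v ∈ S) ∧
      Set.MapsTo φ (hf G (j + 1) b1 b2) (hf G (j + 1) b b') ∧
      Set.InjOn φ (hf G (j + 1) b1 b2) := by
  have hS : ∀ v ∈ hf G (j + 1) b1 b2, v ∈ S := by
    intro x hx
    rcases mem_succ.1 hx with a | ⟨⟨v, hv, a⟩, hn⟩
    · exact h.subA x a
    · exact h.mem_S hc hv a fun w hw _ => hn w hw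
  have hI : ∀ x ∈ hf G (j + 1) b1 b2, ∀ y ∈ hf G (j + 1) b1 b2, ∀ v ∈ hf G j b1 b2,
      G.Adj v x → φ x = φ y → x = y := by
    intro x _ y hy v hv a e
    have hu := h.bijA.mapsTo hv
    obtain ⟨w, h1, h2, -⟩ := hc.lift y (hS y hy) (φ v) (e ▸ (hc.hom _ _ a).symm)
    rcases h.pre w y h1.symm (h2 ▸ hu) with h3 | h3
    · obtain rfl : w = v := h.bijA.injOn h3 hv h2
      exact h.inj w x y a h1.symm hu e
    · exact absurd h1 (hs y hy w (hf_succ h3)).2
  refine ⟨hS, fun x hx => ?_, fun x hx y hy e => ?_⟩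
  · rcases mem_succ.1 hx with a | ⟨⟨v, hv, a⟩, -⟩
    · exact hf_succ (h.bijA.mapsTo a)
    · exact grow_im hc h0 (hS x hx) (h.bijA.mapsTo hv) (hc.hom _ _ a)
  · rcases mem_succ.1 hx with a | ⟨⟨v, hv, a⟩, -⟩
    · rcases mem_succ.1 hy with a' | ⟨⟨v, hv, a'⟩, -⟩
      · exact h.bijA.injOn a a' e
      · exact (hI y hy x hx v hv a' e.symm).symm
    · exact hI x hx y hy v hv a e

theorem bij_of_card {φ : V → V} {A I : Finset V} (h1 : Set.MapsTo φ A I) (h2 : Set.InjOn φ A)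
    (h3 : I.card ≤ A.card) : Set.BijOn φ A I :=
  ⟨h1, h2, Finset.surjOn_of_injOn_of_card_le φ h1 h2 h3⟩

/-- Hierarchical weights. -/
def hwt (U : ℕ → Finset V) (M : ℕ) : ℕ → V → ℕ
  | 0, _ => 0
  | k + 1, u => M * hwt U M k u + if u ∈ U k then 1 else 0

theorem wt_succ (U : ℕ → Finset V) (M k : ℕ) (d : V → ℕ) :
    ∑ u, d u * hwt U M (k + 1) u = M * ∑ u, d u * hwt U M k u + ∑ u ∈ U k, d u := by
  simp only [hwt, mul_add, Finset.sum_add_distrib, Finset.mul_sum, mul_ite, mul_one, mul_zero,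
    Finset.sum_ite_mem, Finset.univ_inter]
  congr 1
  exact Finset.sum_congr rfl fun u _ => by ring

theorem hier (U : ℕ → Finset V) (M J : ℕ) (d d' : V → ℕ) (hM : ∑ u, d' u < M)
    (h : ∑ u, d u * hwt U M J u ≤ ∑ u, d' u * hwt U M J u) (j : ℕ) (hj : j < J)
    (hle : ∀ i ≤ j, ∀ u ∈ U i, d' u ≤ d u) : ∀ u ∈ U j, d u = d' u := by
  have h1 : ∀ n k, k + n = J → ∑ u, d u * hwt U M k u ≤ ∑ u, d' u * hwt U M k u := by
    intro n
    induction n with
    | zero => intro k hk; obtain rfl : k = J := hk; exact h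
    | succ n ih =>
      intro k hk
      have h2 := ih (k + 1) (by omega)
      rw [wt_succ, wt_succ] at h2
      have h3 : ∑ u ∈ U k, d' u ≤ ∑ u, d' u := Finset.sum_le_sum_of_subset (Finset.subset_univ _)
      by_contra c
      push Not at c
      have h4 := Nat.mul_le_mul_left M (Nat.succ_le_of_lt c)
      rw [Nat.mul_succ] at h4
      omega
  have h2 : ∀ k ≤ j, ∑ u, d' u * hwt U M k u ≤ ∑ u, d u * hwt U M k u := by
    intro k
    induction k with
    | zero => intro _; simp [hwt]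
    | succ k ih =>
      intro hk
      rw [wt_succ, wt_succ]
      exact Nat.add_le_add (Nat.mul_le_mul_left M (ih (by omega)))
        (Finset.sum_le_sum (hle k (by omega)))
  have h3 := h1 (J - (j + 1)) (j + 1) (by omega)
  rw [wt_succ, wt_succ] at h3
  have h4 := Nat.mul_le_mul_left M (h2 j le_rfl)
  have h5 : ∑ u ∈ U j, d' u ≤ ∑ u ∈ U j, d u := Finset.sum_le_sum (hle j le_rfl)
  have h6 : ∑ u ∈ U j, d' u = ∑ u ∈ U j, d u := by omega
  exact fun u hu => ((Finset.sum_eq_sum_iff_of_le (hle j le_rfl)).1 h6 u hu).symm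

/-- Both starting sets of `q` lie in `S` and are mapped bijectively onto `I`. -/
def Start (G : SimpleGraph V) (sd : V → Bool) (φ : V → V) (A B I : Finset V) : Prop :=
  ∃ S : Set V, Cover G sd φ S ∧ (∀ v ∈ A, v ∈ S) ∧ (∀ v ∈ B, v ∈ S) ∧ Set.BijOn φ A I ∧
    Set.BijOn φ B I

theorem comb_gen {sd : V → Bool} (hsd : ∀ u v, G.Adj u v → sd u ≠ sd v) {ι : Type} [Fintype ι]
    (Pp : ι → Prop) (A B : ι → Finset V) (R : ι → (V → V) → Prop)
    (hsep : ∀ p, Pp p → ∀ j, ∀ u ∈ hf G j (A p) (B p), ∀ v ∈ hf G j (B p) (A p),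
      u ≠ v ∧ ¬ G.Adj u v)
    (hAB : ∀ p, Pp p → (A p).card = (B p).card) (hne : ∀ p, (A p).Nonempty)
    (hnA : ∀ p, Pp p → ∀ v ∈ A p, ∃ x, G.Adj v x) (hnB : ∀ p, Pp p → ∀ v ∈ B p, ∃ x, G.Adj v x)
    (hB : ∀ p, Pp p → ∀ ω : V → ℕ, ∃ (φ ψ : V → V) (q r : ι), Pp q ∧ Pp r ∧ R q φ ∧
      Start G sd φ (A q) (B q) (A p) ∧ Start G sd ψ (A r) (B r) (B p) ∧
        ∑ e ∈ Ed G sd, (ω (φ e.1) + ω (φ e.2)) + ∑ e ∈ Ed G sd, (ω (ψ e.1) + ω (ψ e.2)) ≤
          2 * ∑ e ∈ Ed G sd, (ω e.1 + ω e.2))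
    (hex : ∃ p, Pp p) :
    ∃ (σ : Equiv.Perm V) (q : ι) (φ : V → V) (j : ℕ), FoldG G sd σ ∧ Pp q ∧ R q φ ∧
      (∀ v ∈ A q, ∀ w ∈ B q, φ v = φ w → σ v = w) ∧
      ∀ v, v ∉ hf G j (A q) (B q) → v ∉ hf G j (B q) (A q) → σ v = v := by
  classical
  let n : ι → ℕ → ℕ := fun p j => (hf G j (A p) (B p)).card + (hf G j (B p) (A p)).card
  obtain ⟨p, hp, hmin⟩ := Finset.exists_min_image (univ.filter Pp) (fun p => toLex (n p))
    (by obtain ⟨p, h⟩ := hex; exact ⟨p, by simpa using h⟩)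
  simp only [Finset.mem_filter, Finset.mem_univ, true_and] at hp hmin
  have hlex : ∀ q, Pp q → ∀ j, (∀ i < j, n q i = n p i) → n p j ≤ n q j := by
    intro q h1 j hj
    by_contra c
    push Not at c
    exact absurd (hmin q h1) (not_le.2 ⟨j, hj, c⟩)
  obtain ⟨J, hJ⟩ := exists_stable (G := G) (A p) (B p)
  let U : ℕ → Finset V := fun j => hf G j (A p) (B p) ∪ hf G j (B p) (A p)
  obtain ⟨φ, ψ, q, r, hq, hr, hR, ⟨S, hc, k1, k2, k3, k4⟩, ⟨S', hc', l1, l2, l3, l4⟩, hw⟩ :=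
    hB p hp (hwt U (∑ u, 2 * G.degree u + 1) (J + 1))
  rw [sum_Ed hsd (fun v => hwt U _ (J + 1) (φ v)), sum_Ed hsd (fun v => hwt U _ (J + 1) (ψ v)),
    sum_Ed hsd, sum_D, sum_D, ← Finset.sum_add_distrib, Finset.mul_sum] at hw
  simp only [← add_mul, ← mul_assoc] at hw
  have hh := hier U _ (J + 1) (fun u => D G φ u + D G ψ u) (fun u => 2 * G.degree u)
    (Nat.lt_succ_self _) hw
  let Q : ℕ → Prop := fun j =>
    Pre G φ S (hf G j (A q) (B q)) (hf G j (B q) (A q)) (hf G j (A p) (B p)) ∧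
    Pre G ψ S' (hf G j (A r) (B r)) (hf G j (B r) (A r)) (hf G j (B p) (A p)) ∧
    (hf G j (A p) (B p)).card = (hf G j (B p) (A p)).card
  have tight : ∀ j ≤ J, (∀ i ≤ j, Q i) →
      (Twin G φ S (hf G j (A q) (B q)) (hf G j (B q) (A q)) (hf G j (A p) (B p)) ∧
        ∀ u ∈ hf G j (B p) (A p), D G φ u = 0) ∧
      (Twin G ψ S' (hf G j (A r) (B r)) (hf G j (B r) (A r)) (hf G j (B p) (A p)) ∧
        ∀ u ∈ hf G j (A p) (B p), D G ψ u = 0) := by
    intro j hj hQ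
    have h1 := hh j (by omega) fun i hi u hu => by
      rcases Finset.mem_union.1 hu with hu | hu
      · have := (hQ i hi).1.two_le hc hu
        show 2 * G.degree u ≤ D G φ u + D G ψ u
        omega
      · have := (hQ i hi).2.1.two_le hc' hu
        show 2 * G.degree u ≤ D G φ u + D G ψ u
        omega
    have h2 : ∀ u ∈ hf G j (A p) (B p), D G φ u + D G ψ u = 2 * G.degree u := fun u hu =>
      h1 u (Finset.mem_union_left _ hu)
    have h3 : ∀ u ∈ hf G j (B p) (A p), D G φ u + D G ψ u = 2 * G.degree u := fun u hu =>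
      h1 u (Finset.mem_union_right _ hu)
    refine ⟨⟨(hQ j le_rfl).1.twin hc fun u hu => ?_, fun u hu => ?_⟩,
      (hQ j le_rfl).2.1.twin hc' fun u hu => ?_, fun u hu => ?_⟩
    · have := h2 u hu; omega
    · have := h3 u hu; have := (hQ j le_rfl).2.1.two_le hc' hu; omega
    · have := h3 u hu; omega
    · have := h2 u hu; have := (hQ j le_rfl).1.two_le hc hu; omega
  have hcard : ∀ {φ : V → V} {A I : Finset V}, Set.BijOn φ A I → A.card = I.card :=
    fun h => Finset.card_bij (fun v _ => _) (fun v hv => h.mapsTo hv)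
      (fun x hx y hy e => h.injOn hx hy e) (fun y hy => by
        obtain ⟨x, hx, e⟩ := h.surjOn hy
        exact ⟨x, hx, e⟩)
  have hQ : ∀ j ≤ J, ∀ i ≤ j, Q i := by
    intro j
    induction j with
    | zero =>
      intro _ i hi
      obtain rfl : i = 0 := by omega
      exact ⟨⟨k1, k2, k3, k4, hsep q hq 0⟩, ⟨l1, l2, l3, l4, hsep r hr 0⟩, hAB p hp⟩
    | succ j ih =>
      intro hj i hi
      have hQ := ih (by omega)
      rcases Nat.lt_or_ge i (j + 1) with c | c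
      · exact hQ i (by omega)
      obtain rfl : i = j + 1 := by omega
      obtain ⟨⟨t1, z1⟩, t2, z2⟩ := tight j (by omega) hQ
      have s1 := hsep q hq (j + 1)
      have s3 := hsep r hr (j + 1)
      obtain ⟨p1, p2, p3⟩ := grow hc t1 z1 s1
      obtain ⟨q1, q2, q3⟩ := grow hc t1.symm z1 fun u hu v hv =>
        ⟨(s1 v hv u hu).1.symm, fun a => (s1 v hv u hu).2 a.symm⟩
      obtain ⟨r1, r2, r3⟩ := grow hc' t2 z2 s3
      obtain ⟨u1, u2, u3⟩ := grow hc' t2.symm z2 fun u hu v hv =>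
        ⟨(s3 v hv u hu).1.symm, fun a => (s3 v hv u hu).2 a.symm⟩
      have e1 := Finset.card_le_card_of_injOn φ p2 p3
      have e2 := Finset.card_le_card_of_injOn φ q2 q3
      have e3 := Finset.card_le_card_of_injOn ψ r2 r3
      have e4 := Finset.card_le_card_of_injOn ψ u2 u3
      have e5 := hlex q hq (j + 1) fun i hi => by
        obtain ⟨x, -, z⟩ := hQ i (by omega)
        have := hcard x.bijA
        have := hcard x.bijB
        simp only [n]
        omega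
      have e6 := hlex r hr (j + 1) fun i hi => by
        obtain ⟨-, x, z⟩ := hQ i (by omega)
        have := hcard x.bijA
        have := hcard x.bijB
        simp only [n]
        omega
      simp only [n] at e5 e6
      exact ⟨⟨p1, q1, bij_of_card p2 p3 (by omega), bij_of_card q2 q3 (by omega), s1⟩,
        ⟨r1, u1, bij_of_card r2 r3 (by omega), bij_of_card u2 u3 (by omega), s3⟩, by omega⟩
  obtain ⟨⟨t1, z1⟩, -⟩ := tight J le_rfl (hQ J le_rfl)
  obtain ⟨σ, h1, h2, h3⟩ := t1.fold hc (fun x hx u hu a => hJ ▸ grow_im hc z1 hx hu a)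
    (fun v hv => nbr (hnA q hq) hv) (fun v hv => nbr (hnB q hq) hv)
    ((hne q).mono fun v hv => self_mem J _ hv)
  exact ⟨σ, q, φ, J, h1, hq, hR, fun v hv w hw => h2 v (self_mem J _ hv) w (self_mem J _ hw), h3⟩

theorem comb {sd : V → Bool} (hsd : ∀ u v, G.Adj u v → sd u ≠ sd v) {col : V → V → Bool}
    (hB : ∀ a b b' : V, G.Adj a b → G.Adj a b' → col a b ≠ col a b' → ∀ ω : V → ℕ,
      ∃ φ ψ : V → V, Over G sd col φ b ∧ Over G sd col ψ b' ∧
        ∑ e ∈ Ed G sd, (ω (φ e.1) + ω (φ e.2)) + ∑ e ∈ Ed G sd, (ω (ψ e.1) + ω (ψ e.2)) ≤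
          2 * ∑ e ∈ Ed G sd, (ω e.1 + ω e.2))
    (hex : ∃ a b b' : V, G.Adj a b ∧ G.Adj a b' ∧ col a b ≠ col a b') :
    ∃ (σ : Equiv.Perm V) (a b1 b2 : V), FoldG G sd σ ∧ G.Adj a b1 ∧ G.Adj a b2 ∧
      col a b1 ≠ col a b2 ∧ σ a = a ∧ σ b1 = b2 := by
  have hsep : ∀ a b b' : V, G.Adj a b → G.Adj a b' → col a b ≠ col a b' → ∀ j,
      ∀ u ∈ hf G j {b} {b'}, ∀ v ∈ hf G j {b'} {b}, u ≠ v ∧ ¬ G.Adj u v := by
    intro a b b' h1 h2 h3 j
    refine sep hsd ?_ (fun e => h3 (by rw [e])) j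
    have x1 := hsd _ _ h1
    have x2 := hsd _ _ h2
    revert x1 x2
    cases sd a <;> cases sd b <;> cases sd b' <;> simp
  obtain ⟨σ, ⟨a, b1, b2⟩, φ, j, h1, ⟨h2, h3, h4⟩, h5, h6, h7⟩ := comb_gen hsd
    (fun p : V × V × V => G.Adj p.1 p.2.1 ∧ G.Adj p.1 p.2.2 ∧ col p.1 p.2.1 ≠ col p.1 p.2.2)
    (fun p => {p.2.1}) (fun p => {p.2.2}) (fun p φ => φ p.2.1 = φ p.2.2)
    (fun p hp => hsep _ _ _ hp.1 hp.2.1 hp.2.2) (fun _ _ => rfl)
    (fun _ => Finset.singleton_nonempty _)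
    (fun p hp v hv => ⟨p.1, by rw [Finset.mem_singleton.1 hv]; exact hp.1.symm⟩)
    (fun p hp v hv => ⟨p.1, by rw [Finset.mem_singleton.1 hv]; exact hp.2.1.symm⟩)
    (fun p hp ω => by
      obtain ⟨φ, ψ, ⟨S, a0, b1, b2, hc, k1, k2, k3, k4, k5, k6, k7⟩,
        ⟨S', a0', c1, c2, hc', l1, l2, l3, l4, l5, l6, l7⟩, hw⟩ := hB _ _ _ hp.1 hp.2.1 hp.2.2 ω
      refine ⟨φ, ψ, (a0, b1, b2), (a0', c1, c2), ⟨k1, k2, k3⟩, ⟨l1, l2, l3⟩, k4.trans k5.symm,
        ⟨S, hc, ?_, ?_, ?_, ?_⟩, ⟨S', hc', ?_, ?_, ?_, ?_⟩, hw⟩ <;> simp [*])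
    (by obtain ⟨a, b, b', h⟩ := hex; exact ⟨(a, b, b'), h⟩)
  have hs := hsep a b1 b2 h2 h3 h4 j
  exact ⟨σ, a, b1, b2, h1, h2, h3, h4,
    h7 a (fun c => (hs _ c _ (self_mem j _ (Finset.mem_singleton_self _))).2 h3)
      (fun c => (hs _ (self_mem j _ (Finset.mem_singleton_self _)) _ c).2 h2.symm),
    h6 b1 (Finset.mem_singleton_self _) b2 (Finset.mem_singleton_self _) h5⟩

theorem bij_pair {φ : V → V} {a b x y : V} (h1 : φ x = a) (h2 : φ y = b) (hab : a ≠ b) :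
    Set.BijOn φ (({x, y} : Finset V) : Set V) (({a, b} : Finset V) : Set V) := by
  refine ⟨fun v hv => ?_, fun v hv w hw e => ?_, fun v hv => ?_⟩
  · simp only [Finset.coe_insert, Finset.coe_singleton, Set.mem_insert_iff,
      Set.mem_singleton_iff] at hv ⊢
    rcases hv with rfl | rfl
    · exact Or.inl h1
    · exact Or.inr h2
  · simp only [Finset.coe_insert, Finset.coe_singleton, Set.mem_insert_iff,
      Set.mem_singleton_iff] at hv hw
    rcases hv with rfl | rfl <;> rcases hw with rfl | rfl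
    · rfl
    · exact absurd (h1.symm.trans (e.trans h2)) hab
    · exact absurd (h1.symm.trans (e.symm.trans h2)) hab
    · rfl
  · simp only [Finset.coe_insert, Finset.coe_singleton, Set.mem_insert_iff,
      Set.mem_singleton_iff] at hv
    rcases hv with rfl | rfl
    · exact ⟨x, by simp, h1⟩
    · exact ⟨y, by simp, h2⟩

theorem comb2 {sd : V → Bool} (hsd : ∀ u v, G.Adj u v → sd u ≠ sd v) {col : V → V → Bool}
    (hsy : ∀ u v, col u v = col v u)
    (hB : ∀ a b a' b' : V, G.Adj a b → G.Adj a' b' → sd a = sd a' → col a b ≠ col a' b' →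
      ∀ ω : V → ℕ, ∃ φ ψ : V → V, Over2 G sd col φ a b a' ∧ Over2 G sd col ψ a' b' a ∧
        ∑ e ∈ Ed G sd, (ω (φ e.1) + ω (φ e.2)) + ∑ e ∈ Ed G sd, (ω (ψ e.1) + ω (ψ e.2)) ≤
          2 * ∑ e ∈ Ed G sd, (ω e.1 + ω e.2))
    (hex : ∃ a b a' b' : V, G.Adj a b ∧ G.Adj a' b' ∧ sd a = sd a' ∧ col a b ≠ col a' b') :
    ∃ (σ : Equiv.Perm V) (a b : V), FoldG G sd σ ∧ G.Adj a b ∧ col a b ≠ col (σ a) (σ b) := by
  by_cases H : ∃ a b b' : V, G.Adj a b ∧ G.Adj a b' ∧ col a b ≠ col a b'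
  · obtain ⟨σ, a, b1, b2, h1, h2, -, h3, h4, h5⟩ := comb hsd (col := col)
      (fun a b b' h1 h2 h3 ω => by
        have key : ∀ φ b, Over2 G sd col φ a b a → Over G sd col φ b := by
          rintro φ b ⟨S, a1, b1, a2, b2, hc, k1, k2, k3, -, -, k4, k5, -, k6, k7⟩
          obtain rfl := k7 rfl
          have := k6 fun e => k3 (by rw [e])
          exact ⟨S, a1, b1, b2, hc, k1, k2, k3, k4, k5, this.1, this.2⟩
        obtain ⟨φ, ψ, x1, x2, x3⟩ := hB a b a b' h1 h2 rfl h3 ω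
        exact ⟨φ, ψ, key φ b x1, key ψ b' x2, x3⟩) H
    exact ⟨σ, a, b1, h1, h2, by rw [h4, h5]; exact h3⟩
  · push Not at H
    have hcl : ∀ a b, G.Adj a b → ∀ v ∈ ({a, b} : Finset V), ∃ x, G.Adj v x ∧ col v x = col a b := by
      intro a b h v hv
      rcases Finset.mem_insert.1 hv with rfl | hv
      · exact ⟨b, h, rfl⟩
      · rw [Finset.mem_singleton.1 hv]
        exact ⟨a, h.symm, hsy _ _⟩
    have key : ∀ φ a b a', G.Adj a b → Over2 G sd col φ a b a' → ∃ q : V × V × V × V,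
        (G.Adj q.1 q.2.1 ∧ G.Adj q.2.2.1 q.2.2.2 ∧ sd q.1 = sd q.2.2.1 ∧
          col q.1 q.2.1 ≠ col q.2.2.1 q.2.2.2) ∧ (φ q.1 = φ q.2.2.1 ∧ φ q.2.1 = φ q.2.2.2) ∧
        Start G sd φ {q.1, q.2.1} {q.2.2.1, q.2.2.2} {a, b} := by
      rintro φ a b a' hab ⟨S, a1, b1, a2, b2, hc, k1, k2, k3, k4, k5, k6, k7, k8, k9, -⟩
      have x1 := k8 fun e => k3 (by subst e; exact H _ _ _ k1 k2)
      have x2 := k9 fun e => k3 (by subst e; rw [hsy a1, hsy a2]; exact H _ _ _ k1.symm k2.symm)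
      refine ⟨(a1, b1, a2, b2), ⟨k1, k2, ?_, k3⟩, ⟨k4.trans k5.symm, k6.trans k7.symm⟩, S, hc,
        ?_, ?_, bij_pair k4 k6 hab.ne, bij_pair k5 k7 hab.ne⟩
      · show sd a1 = sd a2
        rw [← hc.side _ _ k1, ← hc.side _ _ k2, k4, k5]
      · simp [x1.1, x2.1]
      · simp [x1.2, x2.2]
    obtain ⟨σ, ⟨a, b, a', b'⟩, φ, j, h1, ⟨h2, h3, -, h4⟩, h5, h6, -⟩ := comb_gen hsd
      (fun p : V × V × V × V => G.Adj p.1 p.2.1 ∧ G.Adj p.2.2.1 p.2.2.2 ∧ sd p.1 = sd p.2.2.1 ∧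
        col p.1 p.2.1 ≠ col p.2.2.1 p.2.2.2)
      (fun p => {p.1, p.2.1}) (fun p => {p.2.2.1, p.2.2.2})
      (fun p φ => φ p.1 = φ p.2.2.1 ∧ φ p.2.1 = φ p.2.2.2)
      (fun p hp => sep' hsy H (hcl _ _ hp.1) (hcl _ _ hp.2.1) hp.2.2.2)
      (fun p hp => by rw [Finset.card_pair hp.1.ne, Finset.card_pair hp.2.1.ne])
      (fun _ => Finset.insert_nonempty _ _)
      (fun p hp v hv => (hcl _ _ hp.1 v hv).imp fun _ h => h.1)
      (fun p hp v hv => (hcl _ _ hp.2.1 v hv).imp fun _ h => h.1)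
      (fun p hp ω => by
        obtain ⟨φ, ψ, x1, x2, x3⟩ := hB _ _ _ _ hp.1 hp.2.1 hp.2.2.1 hp.2.2.2 ω
        obtain ⟨q, y1, y2, y3⟩ := key _ _ _ _ hp.1 x1
        obtain ⟨r, z1, -, z3⟩ := key _ _ _ _ hp.2.1 x2
        exact ⟨φ, ψ, q, r, y1, z1, y2, y3, z3, x3⟩)
      (by obtain ⟨a, b, a', b', h⟩ := hex; exact ⟨(a, b, a', b'), h⟩)
    refine ⟨σ, a, b, h1, h2, ?_⟩
    rw [h6 a (by simp) a' (by simp) h5.1, h6 b (by simp) b' (by simp) h5.2]
    exact h4

end Pool.Agent.P.MP_16ad8c_co.OI
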