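import Pool.Agent.P.MP_16ad8c_co.Discrete
import Pool.Agent.P.MP_16ad8c_co.DefsFold

namespace Pool.Agent.P.MP_16ad8c_co.OI

open Finset

variable {V : Type} [Fintype V] [DecidableEq V] {Λ : Type} [Fintype Λ] [DecidableEq Λ]

/-- The quadratic form of a set of terms. A term is a pair of labellings; the vertices in `R τ`
carry the vertex weight of their side. -/
noncomputable def form (E : Finset (V × V)) (sd : V → Bool) (𝒯 : Finset ((Λ → V) × (Λ → V)))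
    (R : (Λ → V) × (Λ → V) → Finset V) {P : Type} [Fintype P] (μ : Bool → P → ℝ)
    (W : P → P → ℝ) (c : (Λ → P) → ℝ) : ℝ :=
  ∑ τ ∈ 𝒯, ∑ ψ : V → P, c (ψ ∘ τ.1) * c (ψ ∘ τ.2) *
    ((∏ u ∈ R τ, μ (sd u) (ψ u)) * ∏ e ∈ E, W (ψ e.1) (ψ e.2))

/-- The form is nonnegative on all finite weighted targets. -/
def PSD (E : Finset (V × V)) (sd : V → Bool) (𝒯 : Finset ((Λ → V) × (Λ → V)))
    (R : (Λ → V) × (Λ → V) → Finset V) : Prop :=
  ∀ (P : Type) [Fintype P] [DecidableEq P] (μ : Bool → P → ℝ) (W : P → P → ℝ)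
    (c : (Λ → P) → ℝ), (∀ s p, 0 ≤ μ s p) → (∀ p q, 0 ≤ W p q) → 0 ≤ form E sd 𝒯 R μ W c

/-- Second order consequence of the triangle inequality. -/
def S_Gamma : Prop :=
  ∀ (V₁ V₂ : Type) [Fintype V₁] [Fintype V₂] [DecidableEq V₁] [DecidableEq V₂]
    (E O : Finset (V₁ × V₂)), Tri E → O ⊆ E →
    ∀ (P : Type) [Fintype P] [DecidableEq P] (μ ν : P → ℝ) (W c : P → P → ℝ),
      (∀ p, 0 ≤ μ p) → (∀ p, 0 ≤ ν p) → (∀ p q, 0 ≤ W p q) →
      0 ≤ ∑ x : V₁ → P, ∑ y : V₂ → P, (∑ e ∈ O, c (x e.1) (y e.2)) *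
        (∑ f ∈ E \ O, c (x f.1) (y f.2)) *
        (((∏ u, μ (x u)) * ∏ v, ν (y v)) * ∏ e ∈ E, W (x e.1) (y e.2))

end Pool.Agent.P.MP_16ad8c_co.OI
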