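import Pool.Agent.P.MP_16ad8c_co.OI.Iface

namespace Pool.Agent.P.MP_16ad8c_co.OI

open Finset

set_option linter.unusedSectionVars false

variable {V : Type} [Fintype V] [DecidableEq V] (G : SimpleGraph V) [DecidableRel G.Adj]

/-- The growing half of `A` against `B`. -/
def hf : ℕ → Finset V → Finset V → Finset V
  | 0, A, _ => A
  | j + 1, A, B => hf j A B ∪ univ.filter fun v =>
      (∃ u ∈ hf j A B, G.Adj u v) ∧ ∀ u ∈ hf j B A, ¬ G.Adj u v

variable {G}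

theorem mem_zero {A B : Finset V} {v : V} : v ∈ hf G 0 A B ↔ v ∈ A := by simp [hf]

theorem mem_succ {j : ℕ} {A B : Finset V} {v : V} : v ∈ hf G (j + 1) A B ↔ v ∈ hf G j A B ∨
    ((∃ u ∈ hf G j A B, G.Adj u v) ∧ ∀ u ∈ hf G j B A, ¬ G.Adj u v) := by
  rw [hf, Finset.mem_union, Finset.mem_filter]
  simp only [Finset.mem_univ, true_and]

theorem hf_succ {j : ℕ} {A B : Finset V} {v : V} (h : v ∈ hf G j A B) : v ∈ hf G (j + 1) A B :=
  mem_succ.2 (Or.inl h)

theorem self_mem (j : ℕ) {A : Finset V} (B : Finset V) {b : V} (hb : b ∈ A) : b ∈ hf G j A B := by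
  induction j with
  | zero => exact hb
  | succ j ih => exact hf_succ ih

theorem nbr {j : ℕ} {A B : Finset V} {v : V} (hA : ∀ b ∈ A, ∃ x, G.Adj b x)
    (h : v ∈ hf G j A B) : ∃ x, G.Adj v x := by
  induction j with
  | zero => exact hA v h
  | succ j ih =>
    rcases mem_succ.1 h with h | ⟨⟨u, -, hu⟩, -⟩
    · exact ih h
    · exact ⟨u, hu.symm⟩

theorem parity {sd : V → Bool} (hsd : ∀ u v, G.Adj u v → sd u ≠ sd v) (j : ℕ) (b b' : V) :
    ∀ v, v ∈ hf G (j + 1) {b} {b'} → v ∉ hf G j {b} {b'} → sd v = (sd b == Nat.bodd j) := by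
  induction j with
  | zero =>
    intro v h1 h2
    rcases mem_succ.1 h1 with h | ⟨⟨u, hu, huv⟩, -⟩
    · exact absurd h h2
    · have := hsd _ _ huv
      rw [Finset.mem_singleton.1 (mem_zero.1 hu)] at this
      revert this
      cases sd b <;> cases sd v <;> simp
  | succ j ih =>
    intro v h1 h2
    rcases mem_succ.1 h1 with h | ⟨⟨u, hu, huv⟩, h3⟩
    · exact absurd h h2
    · have h4 : u ∉ hf G j {b} {b'} := fun h4 =>
        h2 (mem_succ.2 (Or.inr ⟨⟨u, h4, huv⟩, fun w hw => h3 w (hf_succ hw)⟩))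
      have h5 := ih u hu h4
      have h6 := hsd _ _ huv
      rw [h5] at h6
      rw [Nat.bodd_succ]
      revert h6
      cases sd b <;> cases sd v <;> cases Nat.bodd j <;> simp

theorem sep {sd : V → Bool} (hsd : ∀ u v, G.Adj u v → sd u ≠ sd v) {b b' : V}
    (hs : sd b = sd b') (hne : b ≠ b') (j : ℕ) :
    ∀ u ∈ hf G j {b} {b'}, ∀ v ∈ hf G j {b'} {b}, u ≠ v ∧ ¬ G.Adj u v := by
  induction j with
  | zero =>
    intro u hu v hv
    rw [Finset.mem_singleton.1 (mem_zero.1 hu), Finset.mem_singleton.1 (mem_zero.1 hv)]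
    exact ⟨hne, fun h => hsd _ _ h hs⟩
  | succ j ih =>
    intro u hu v hv
    by_cases h1 : u ∈ hf G j {b} {b'} <;> by_cases h2 : v ∈ hf G j {b'} {b}
    · exact ih u h1 v h2
    · obtain ⟨⟨w, hw, hwv⟩, h3⟩ := (mem_succ.1 hv).resolve_left h2
      refine ⟨fun e => (ih u h1 w hw).2 ?_, h3 u h1⟩
      rw [e]; exact hwv.symm
    · obtain ⟨⟨w, hw, hwu⟩, h3⟩ := (mem_succ.1 hu).resolve_left h1
      refine ⟨fun e => (ih w hw v h2).2 ?_, fun h => h3 v h2 h.symm⟩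
      rw [← e]; exact hwu
    · obtain ⟨⟨w, hw, hwu⟩, -⟩ := (mem_succ.1 hu).resolve_left h1
      obtain ⟨-, h3⟩ := (mem_succ.1 hv).resolve_left h2
      refine ⟨fun e => h3 w hw (e ▸ hwu), fun h => hsd _ _ h ?_⟩
      rw [parity hsd j b b' u hu h1, parity hsd j b' b v hv h2, hs]

theorem col_hf {col : V → V → Bool} (hsy : ∀ u v, col u v = col v u)
    (H : ∀ a b b', G.Adj a b → G.Adj a b' → col a b = col a b') {A B : Finset V} {c : Bool}
    (hA : ∀ v ∈ A, ∃ x, G.Adj v x ∧ col v x = c) (j : ℕ) :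
    ∀ v ∈ hf G j A B, ∃ x, G.Adj v x ∧ col v x = c := by
  induction j with
  | zero => exact hA
  | succ j ih =>
    intro v hv
    rcases mem_succ.1 hv with h | ⟨⟨u, hu, huv⟩, -⟩
    · exact ih v h
    · obtain ⟨x, h1, h2⟩ := ih u hu
      exact ⟨u, huv.symm, by rw [hsy, H u v x huv h1, h2]⟩

theorem sep' {col : V → V → Bool} (hsy : ∀ u v, col u v = col v u)
    (H : ∀ a b b', G.Adj a b → G.Adj a b' → col a b = col a b') {A B : Finset V} {c c' : Bool}
    (hA : ∀ v ∈ A, ∃ x, G.Adj v x ∧ col v x = c) (hB : ∀ v ∈ B, ∃ x, G.Adj v x ∧ col v x = c')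
    (hc : c ≠ c') (j : ℕ) : ∀ u ∈ hf G j A B, ∀ v ∈ hf G j B A, u ≠ v ∧ ¬ G.Adj u v := by
  intro u hu v hv
  obtain ⟨x, h1, h2⟩ := col_hf hsy H hA j u hu
  obtain ⟨y, h3, h4⟩ := col_hf hsy H hB j v hv
  refine ⟨fun e => hc ?_, fun a => hc ?_⟩
  · subst e
    rw [← h2, ← h4, H u x y h1 h3]
  · rw [← h2, ← h4, H u x v h1 a, hsy, H v u y a.symm h3]

theorem exists_stable (A B : Finset V) : ∃ j, hf G (j + 1) A B = hf G j A B := by
  by_contra h
  push Not at h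
  have h1 : ∀ j, j ≤ (hf G j A B).card := by
    intro j
    induction j with
    | zero => exact Nat.zero_le _
    | succ j ih =>
      have : (hf G j A B).card < (hf G (j + 1) A B).card :=
        Finset.card_lt_card (Finset.ssubset_iff_subset_ne.2 ⟨fun v hv => hf_succ hv, (h j).symm⟩)
      omega
  have h2 := h1 (Fintype.card V + 1)
  have h3 := Finset.card_le_univ (hf G (Fintype.card V + 1) A B)
  omega

/-- Folds of a graph with a side function. -/
def FoldG (G : SimpleGraph V) (sd : V → Bool) (σ : Equiv.Perm V) : Prop :=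
  (((∀ u, sd (σ u) = sd u) ∧ ∀ u v, G.Adj (σ u) (σ v) ↔ G.Adj u v) ∧ σ = σ⁻¹ ∧
    ¬ (G.induce {u | σ u ≠ u}).Preconnected) ∧ ∃ L : Set V, (∀ u ∈ L, σ u ∉ L) ∧
    (∀ u, σ u ≠ u → u ∈ L ∨ σ u ∈ L) ∧ ∀ u ∈ L, ∀ v, G.Adj u v → v ∈ L ∨ σ v = v

/-- Two separated sets that are mapped bijectively onto `I` and exhaust its preimage. -/
structure Twin (G : SimpleGraph V) (φ : V → V) (S : Set V) (A B I : Finset V) : Prop where
  subA : ∀ v ∈ A, v ∈ S
  subB : ∀ v ∈ B, v ∈ S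
  bijA : Set.BijOn φ A I
  bijB : Set.BijOn φ B I
  sep : ∀ u ∈ A, ∀ v ∈ B, u ≠ v ∧ ¬ G.Adj u v
  pre : ∀ v x, G.Adj v x → φ v ∈ I → v ∈ A ∨ v ∈ B
  inj : ∀ v x y, G.Adj v x → G.Adj v y → φ v ∈ I → φ x = φ y → x = y

theorem Twin.symm {φ : V → V} {S : Set V} {A B I : Finset V} (h : Twin G φ S A B I) :
    Twin G φ S B A I :=
  ⟨h.subB, h.subA, h.bijB, h.bijA,
    fun u hu v hv => ⟨(h.sep v hv u hu).1.symm, fun a => (h.sep v hv u hu).2 a.symm⟩,
    fun v x a b => (h.pre v x a b).symm, h.inj⟩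

/-- A neighbour of `A` that is not adjacent to the partner lies in `S`. -/
theorem Twin.mem_S {sd : V → Bool} {φ : V → V} {S : Set V} {A B I : Finset V}
    (h : Twin G φ S A B I) (hc : Cover G sd φ S) {v x : V} (hv : v ∈ A) (hx : G.Adj v x)
    (hn : ∀ w ∈ B, φ w = φ v → ¬ G.Adj w x) : x ∈ S := by
  have hI : φ v ∈ I := h.bijA.mapsTo hv
  obtain ⟨x', h1, h2, h3⟩ := hc.lift v (h.subA v hv) (φ x) (hc.hom _ _ hx)
  obtain rfl : x' = x := h.inj v x' x h1 hx hI h2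
  refine h3 fun v' h4 h5 => ?_
  rcases h.pre v' x' h4 (h5 ▸ hI) with h6 | h6
  · exact h.bijA.injOn h6 hv h5
  · exact absurd h4 (hn v' h6 h5)

theorem Twin.adj_in {sd : V → Bool} {φ : V → V} {S : Set V} {A B I : Finset V}
    (h : Twin G φ S A B I) (hc : Cover G sd φ S) {v x v' x' : V} (hv : v ∈ A)
    (hvx : G.Adj v x) (hv' : v' ∈ B) (hx' : x' ∈ B) (e1 : φ v' = φ v) (e2 : φ x' = φ x) :
    G.Adj v' x' := by
  have hI : φ v ∈ I := h.bijA.mapsTo hv
  obtain ⟨w, h1, h2, -⟩ := hc.lift x' (h.subB x' hx') (φ v) (e2 ▸ (hc.hom _ _ hvx).symm)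
  rcases h.pre w x' h1.symm (h2 ▸ hI) with h3 | h3
  · exact absurd h1.symm (h.sep w h3 x' hx').2
  · rw [← h.bijB.injOn h3 hv' (h2.trans e1.symm)]
    exact h1.symm

theorem Twin.adj_out {sd : V → Bool} {φ : V → V} {S : Set V} {A B I : Finset V}
    (h : Twin G φ S A B I) (hc : Cover G sd φ S)
    (hst : ∀ x ∈ S, ∀ u ∈ I, G.Adj u (φ x) → φ x ∈ I) {v x v' : V} (hv : v ∈ A)
    (hvx : G.Adj v x) (hv' : v' ∈ B) (hxA : x ∉ A) (hxB : x ∉ B) (e1 : φ v' = φ v) :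
    G.Adj v' x := by
  by_contra hn
  have hS : x ∈ S := h.mem_S hc hv hvx fun w hw e a =>
    hn (h.bijB.injOn hw hv' (e.trans e1.symm) ▸ a)
  have hI : φ x ∈ I := hst x hS _ (h.bijA.mapsTo hv) (hc.hom _ _ hvx)
  rcases h.pre x v hvx.symm hI with h1 | h1
  · exact hxA h1
  · exact hxB h1

theorem Twin.fold {sd : V → Bool} {φ : V → V} {S : Set V} {A B I : Finset V}
    (h : Twin G φ S A B I) (hc : Cover G sd φ S)
    (hst : ∀ x ∈ S, ∀ u ∈ I, G.Adj u (φ x) → φ x ∈ I)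
    (hA : ∀ v ∈ A, ∃ x, G.Adj v x) (hB : ∀ v ∈ B, ∃ x, G.Adj v x) (hne : A.Nonempty) :
    ∃ σ : Equiv.Perm V, FoldG G sd σ ∧ (∀ v ∈ A, ∀ w ∈ B, φ v = φ w → σ v = w) ∧
      ∀ v, v ∉ A → v ∉ B → σ v = v := by
  have hex : ∀ v, ∃ w, (v ∈ A → w ∈ B ∧ φ w = φ v) ∧ (v ∈ B → w ∈ A ∧ φ w = φ v) ∧
      (v ∉ A → v ∉ B → w = v) := by
    intro v
    by_cases a : v ∈ A
    · obtain ⟨w, hw, e⟩ := h.bijB.surjOn (h.bijA.mapsTo a)
      exact ⟨w, fun _ => ⟨hw, e⟩, fun b => absurd rfl (h.sep v a v b).1, fun b => absurd a b⟩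
    · by_cases b : v ∈ B
      · obtain ⟨w, hw, e⟩ := h.bijA.surjOn (h.bijB.mapsTo b)
        exact ⟨w, fun c => absurd c a, fun _ => ⟨hw, e⟩, fun _ c => absurd b c⟩
      · exact ⟨v, fun c => absurd c a, fun c => absurd c b, fun _ _ => rfl⟩
  choose s sA sB sO using hex
  have hinv : Function.Involutive s := by
    intro v
    by_cases a : v ∈ A
    · exact h.bijA.injOn (sB _ (sA v a).1).1 a ((sB _ (sA v a).1).2.trans (sA v a).2)
    · by_cases b : v ∈ B
      · exact h.bijB.injOn (sA _ (sB v b).1).1 b ((sA _ (sB v b).1).2.trans (sB v b).2)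
      · rw [sO v a b, sO v a b]
  have hadj : ∀ u v, G.Adj u v → G.Adj (s u) (s v) := by
    intro u v huv
    by_cases ua : u ∈ A
    · by_cases va : v ∈ A
      · exact h.adj_in hc ua huv (sA u ua).1 (sA v va).1 (sA u ua).2 (sA v va).2
      · have vb : v ∉ B := fun c => (h.sep u ua v c).2 huv
        rw [sO v va vb]
        exact h.adj_out hc hst ua huv (sA u ua).1 va vb (sA u ua).2
    · by_cases ub : u ∈ B
      · have va : v ∉ A := fun c => (h.sep v c u ub).2 huv.symm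
        by_cases vb : v ∈ B
        · exact h.symm.adj_in hc ub huv (sB u ub).1 (sB v vb).1 (sB u ub).2 (sB v vb).2
        · rw [sO v va vb]
          exact h.symm.adj_out hc hst ub huv (sB u ub).1 vb va (sB u ub).2
      · rw [sO u ua ub]
        by_cases va : v ∈ A
        · exact (h.adj_out hc hst va huv.symm (sA v va).1 ua ub (sA v va).2).symm
        · by_cases vb : v ∈ B
          · exact (h.symm.adj_out hc hst vb huv.symm (sB v vb).1 ub ua (sB v vb).2).symm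
          · rw [sO v va vb]; exact huv
  have hsA : ∀ v ∈ A, sd (φ v) = sd v := fun v a => (hA v a).elim fun x hx => hc.side v x hx
  have hsB : ∀ v ∈ B, sd (φ v) = sd v := fun v a => (hB v a).elim fun x hx => hc.side v x hx
  have hb' : ∀ v ∈ A, ∀ w ∈ B, φ v = φ w → s v = w := fun v h1 w h2 h12 =>
    h.bijB.injOn (sA v h1).1 h2 ((sA v h1).2.trans h12)
  obtain ⟨b1, h1⟩ := hne
  obtain ⟨b2, h2, h12⟩ := h.bijB.surjOn (h.bijA.mapsTo h1)
  have hb : s b1 = b2 := hb' b1 h1 b2 h2 h12.symm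
  have hmov : ∀ v, s v ≠ v → v ∈ A ∨ v ∈ B := by
    intro v hv
    by_contra c
    push Not at c
    exact hv (sO v c.1 c.2)
  refine ⟨hinv.toPerm s, ⟨⟨⟨fun u => ?_, fun u v => ⟨fun a => ?_, hadj u v⟩⟩, ?_, ?_⟩,
    (A : Set V), fun u hu c => ?_, fun u hu => ?_, fun u hu v huv => ?_⟩, hb', sO⟩
  · show sd (s u) = sd u
    by_cases a : u ∈ A
    · rw [← hsB _ (sA u a).1, (sA u a).2, hsA u a]
    · by_cases b : u ∈ B
      · rw [← hsA _ (sB u b).1, (sB u b).2, hsB u b]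
      · rw [sO u a b]
  · have := hadj _ _ a
    change G.Adj (s (s u)) (s (s v)) at this
    rwa [hinv u, hinv v] at this
  · exact Equiv.ext fun _ => rfl
  · intro hp
    have n1 : s b1 ≠ b1 := by rw [hb]; exact (h.sep b1 h1 b2 h2).1.symm
    have n2 : s b2 ≠ b2 := fun c => (h.sep b2 (c ▸ (sB b2 h2).1) b2 h2).1 rfl
    have hr := (SimpleGraph.reachable_iff_reflTransGen _ _).1 (hp ⟨b1, n1⟩ ⟨b2, n2⟩)
    have key : ∀ z : {u | (hinv.toPerm s) u ≠ u}, Relation.ReflTransGen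
        (G.induce {u | (hinv.toPerm s) u ≠ u}).Adj ⟨b1, n1⟩ z → z.1 ∈ A := by
      intro z hz
      induction hz with
      | refl => exact h1
      | tail _ hadj' ih =>
        rename_i p q _
        exact (hmov q.1 q.2).resolve_right fun c => (h.sep _ ih _ c).2 hadj'
    exact (h.sep b2 (key _ hr) b2 h2).1 rfl
  · exact (h.sep _ c _ (sA u hu).1).1 rfl
  · exact (hmov u hu).imp id fun b => (sB u b).1
  · by_cases a : v ∈ A
    · exact Or.inl a
    · exact Or.inr (sO v a fun c => (h.sep u hu v c).2 huv)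

end Pool.Agent.P.MP_16ad8c_co.OI
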