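import Pool.Agent.P.MP_16ad8c_co.Discrete
import Pool.Agent.P.MP_16ad8c_co.DefsFold

namespace Pool.Agent.P.MP_16ad8c_co.OI

open Finset

variable {V : Type} [Fintype V] [DecidableEq V]

/-- The edges, oriented from side `true` to side `false`. -/
def Ed (G : SimpleGraph V) [DecidableRel G.Adj] (sd : V → Bool) : Finset (V × V) :=
  univ.filter fun e => G.Adj e.1 e.2 ∧ sd e.1 = true

/-- Step (A): the two-colour maximum inequality on finite targets. -/
def MaxIneq (G : SimpleGraph V) [DecidableRel G.Adj] (sd : V → Bool) (col : V → V → Bool) : Prop :=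
  ∀ (P : Type) [Fintype P] [DecidableEq P] [Nonempty P] (f : Bool → P → P → ℝ),
    (∀ i p q, 0 ≤ f i p q) → ∃ i : Bool,
      ∑ x : V → P, ∏ e ∈ Ed G sd, f (col e.1 e.2) (x e.1) (x e.2) ≤
        ∑ x : V → P, ∏ e ∈ Ed G sd, f i (x e.1) (x e.2)

/-- An endomorphism with a set `S` of vertices at which all edges lift. -/
structure Cover (G : SimpleGraph V) (sd : V → Bool) (φ : V → V) (S : Set V) : Prop where
  side : ∀ u v, G.Adj u v → sd (φ u) = sd u
  hom : ∀ u v, G.Adj u v → G.Adj (φ u) (φ v)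
  lift : ∀ v ∈ S, ∀ y, G.Adj (φ v) y → ∃ x, G.Adj v x ∧ φ x = y ∧
    ((∀ v', G.Adj v' x → φ v' = φ v → v' = v) → x ∈ S)

/-- Two edges of different colours with a common end whose free ends lie in `S`, over `b`. -/
def Over (G : SimpleGraph V) (sd : V → Bool) (col : V → V → Bool) (φ : V → V) (b : V) : Prop :=
  ∃ (S : Set V) (a0 b1 b2 : V), Cover G sd φ S ∧ G.Adj a0 b1 ∧ G.Adj a0 b2 ∧
    col a0 b1 ≠ col a0 b2 ∧ φ b1 = b ∧ φ b2 = b ∧ b1 ∈ S ∧ b2 ∈ S

/-- Step (B). -/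
def S_B : Prop :=
  ∀ (V : Type) [Fintype V] [DecidableEq V] (G : SimpleGraph V) [DecidableRel G.Adj]
    (sd : V → Bool) (col : V → V → Bool), (∀ u v, G.Adj u v → sd u ≠ sd v) →
    (∀ u v, col u v = col v u) → MaxIneq G sd col →
    ∀ a b b' : V, G.Adj a b → G.Adj a b' → col a b ≠ col a b' → ∀ ω : V → ℕ,
      ∃ φ ψ : V → V, Over G sd col φ b ∧ Over G sd col ψ b' ∧
        ∑ e ∈ Ed G sd, (ω (φ e.1) + ω (φ e.2)) + ∑ e ∈ Ed G sd, (ω (ψ e.1) + ω (ψ e.2)) ≤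
          2 * ∑ e ∈ Ed G sd, (ω e.1 + ω e.2)

end Pool.Agent.P.MP_16ad8c_co.OI
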